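import Mathlib

/-!
# DL ABEL (discrete Abel summation)

With `h k = 1 / √(log n - log k + L)` (increasing in `k ≤ n`, `≤ 1` because `L ≥ 1`), `A = log n + L`:
`Σ_{k=1}^N s_k h_k = h_N S_N - Σ_{k=1}^{N-1} S_k (h_{k+1} - h_k)`
`  ≥ h_N (½ log N - C) - Σ_{k<N} (½ log k + C)(h_{k+1} - h_k)`
`  = ½ Σ_{k=2}^N (log k - log (k-1)) h_k - C h_N - C (h_N - h_1)`
`  ≥ Σ_{k=2}^N (√(A - log (k-1)) - √(A - log k)) - 2 C = √A - √(A - log N) - 2 C`,
because `√(A - log (k-1)) - √(A - log k) = (log k - log (k-1)) / (√(A - log (k-1)) + √(A - log k))`.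
Finally `N = n / Z ≥ n / (2 Z)`, so `A - log N ≤ log (2 Z) + L`.
(Induction over `N` is also possible: prove the inequality with `h_N` kept.)
-/

set_option autoImplicit false

namespace Pool.Agent.DL

/-- `√x - √y ≤ (x - y) / (2 √y)` -/
lemma ABELsqrt_sub_le {x y : ℝ} (hy : 0 < y) (hxy : y ≤ x) :
    √x - √y ≤ (x - y) / 2 * (1 / √y) := by
  have hsy : 0 < √y := Real.sqrt_pos.2 hy
  have h1 : √x * √x = x := Real.mul_self_sqrt (by linarith)
  have h2 : √y * √y = y := Real.mul_self_sqrt hy.le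
  rw [mul_one_div, le_div_iff₀ hsy]
  nlinarith [sq_nonneg (√x - √y)]

theorem abel (s : ℕ → ℝ) (C : ℝ) (hC : 0 ≤ C)
    (hS : ∀ N : ℕ, 1 ≤ N → |(∑ k ∈ Finset.Icc 1 N, s k) - Real.log N / 2| ≤ C)
    (Z n : ℕ) (hZ : 1 ≤ Z) (hn : Z ≤ n) (L : ℝ) (hL : 1 ≤ L) :
    √(Real.log n + L) - √(Real.log (2 * Z) + L) - 2 * C ≤
      ∑ k ∈ Finset.Icc 1 (n / Z), s k / √(Real.log (n / k) + L) := by
  have hn1 : 1 ≤ n := hZ.trans hn
  have hn0 : (0 : ℝ) < n := by exact_mod_cast hn1
  set A : ℝ := Real.log n + L with hA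
  set h : ℕ → ℝ := fun k => 1 / √(A - Real.log k) with hh
  have hAk : ∀ k : ℕ, 1 ≤ k → k ≤ n → 1 ≤ A - Real.log k := by
    intro k hk hkn
    have : Real.log k ≤ Real.log n := Real.log_le_log (by exact_mod_cast hk) (by exact_mod_cast hkn)
    rw [hA]
    linarith
  have hterm : ∀ k : ℕ, 1 ≤ k → s k / √(Real.log (n / k) + L) = s k * h k := by
    intro k hk
    have hk0 : (0 : ℝ) < k := by exact_mod_cast hk
    rw [Real.log_div hn0.ne' hk0.ne', hh, hA, mul_one_div]
    congr 2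
    ring
  have key : ∀ N : ℕ, 1 ≤ N → N ≤ n →
      √A - √(A - Real.log N) + ((∑ k ∈ Finset.Icc 1 N, s k) - Real.log N / 2) * h N
        - C * h N + C * h 1 ≤ ∑ k ∈ Finset.Icc 1 N, s k * h k := by
    intro N hN
    induction N, hN using Nat.le_induction with
    | base =>
      intro _
      simp
    | succ N hN ih =>
      intro hN1
      have ih' := ih (by omega)
      rw [Finset.sum_Icc_succ_top (by omega), Finset.sum_Icc_succ_top (by omega)]
      have hx := hAk N hN (by omega)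
      have hy := hAk (N + 1) (by omega) hN1
      have hlog : Real.log (N : ℝ) ≤ Real.log ((N + 1 : ℕ) : ℝ) :=
        Real.log_le_log (by exact_mod_cast hN) (by exact_mod_cast Nat.le_succ N)
      have h1 := ABELsqrt_sub_le (x := A - Real.log (N : ℝ)) (y := A - Real.log ((N + 1 : ℕ) : ℝ))
        (by linarith) (by linarith)
      have h2 : h N ≤ h (N + 1) := by
        rw [hh]
        dsimp only
        apply one_div_le_one_div_of_le (Real.sqrt_pos.2 (by linarith))
        exact Real.sqrt_le_sqrt (by linarith)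
      have h3 := abs_le.1 (hS N hN)
      have h4 : 0 ≤ (C - ((∑ k ∈ Finset.Icc 1 N, s k) - Real.log N / 2)) * (h (N + 1) - h N) :=
        mul_nonneg (by linarith [h3.2]) (by linarith)
      have h5 : h (N + 1) = 1 / √(A - Real.log ((N + 1 : ℕ) : ℝ)) := rfl
      rw [← h5] at h1
      nlinarith
  set N : ℕ := n / Z with hN
  have hN1 : 1 ≤ N := by
    rw [hN]
    exact (Nat.one_le_div_iff (by omega)).2 hn
  have hNn : N ≤ n := Nat.div_le_self n Z
  have hkey := key N hN1 hNn
  have hsum : ∑ k ∈ Finset.Icc 1 N, s k / √(Real.log (n / k) + L) =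
      ∑ k ∈ Finset.Icc 1 N, s k * h k := by
    apply Finset.sum_congr rfl
    intro k hk
    exact hterm k (Finset.mem_Icc.1 hk).1
  rw [hsum]
  have hN0 : (0 : ℝ) < N := by exact_mod_cast hN1
  have hZ0 : (0 : ℝ) < Z := by exact_mod_cast hZ
  have h6 : A - Real.log N ≤ Real.log (2 * Z) + L := by
    have h7 : n ≤ 2 * Z * N := by
      have h8 : n < Z * N + Z := by
        have := Nat.lt_div_mul_add (a := n) (b := Z) (by omega)
        rw [hN]
        nlinarith
      nlinarith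
    have h9 : (n : ℝ) ≤ 2 * Z * N := by exact_mod_cast h7
    have h10 := Real.log_le_log hn0 h9
    rw [Real.log_mul (by positivity) hN0.ne'] at h10
    rw [hA]
    linarith
  have h11 : √(A - Real.log N) ≤ √(Real.log (2 * Z) + L) := Real.sqrt_le_sqrt h6
  have h12 : 0 ≤ h 1 := by
    rw [hh]
    positivity
  have h13 : 0 ≤ h N := by
    rw [hh]
    positivity
  have h14 : h N ≤ 1 := by
    have h15 := hAk N hN1 hNn
    have h16 : 1 ≤ √(A - Real.log N) := by
      rw [show (1 : ℝ) = √1 by simp]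
      exact Real.sqrt_le_sqrt h15
    rw [hh]
    dsimp only
    rw [div_le_one (by linarith)]
    exact h16
  have h17 := (abs_le.1 (hS N hN1)).1
  have h18 : -C * h N ≤ ((∑ k ∈ Finset.Icc 1 N, s k) - Real.log N / 2) * h N :=
    mul_le_mul_of_nonneg_right h17 h13
  nlinarith [mul_nonneg hC h12, mul_le_mul_of_nonneg_left h14 hC]

end Pool.Agent.DL
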