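import Pool.Agent.DL.Defs

/-!
# DL CHAR (the real character of the determinant)

`chi d m = J(-d | m)` for odd `m`, `0` for even `m` (`d ≥ 1`).  It is completely multiplicative,
periodic modulo `4 d` (`jacobiSym.mod_right` for odd `m`; parity is periodic), takes values in
`{-1,0,1}`, `chi (4 d - 1) = -1`: `J(-d | 4d-1) = J(-1 | 4d-1) J(d | 4d-1)`, `J(-1|4d-1) = -1` as
`4d-1 ≡ 3 mod 4`, and `J(-d | 4d-1)`: write `J(4(-d) | 4d-1) = J(-d|4d-1)` and
`4(-d) ≡ -1 mod (4d-1)`, so it equals `J(-1 | 4d-1) = -1`.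
For a prime `p`: `Split d p ↔ chi d p = 1`, and `chi d p = -1` or `p ∣ 2 d` otherwise.
-/

set_option autoImplicit false

namespace Pool.Agent.DL

/-- the character -/
def chi (d : ℕ) (m : ℕ) : ℤ := if m % 2 = 1 then jacobiSym (-(d : ℤ)) m else 0

theorem chi_one (d : ℕ) : chi d 1 = 1 := by
  simp [chi]

theorem chi_mul (d : ℕ) (hd : 1 ≤ d) (m n : ℕ) : chi d (m * n) = chi d m * chi d n := by
  unfold chi
  rcases Nat.mod_two_eq_zero_or_one m with hm | hm
  · have h1 : (m * n) % 2 ≠ 1 := by rw [Nat.mul_mod, hm]; simp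
    rw [if_neg h1, if_neg (by omega), zero_mul]
  · rcases Nat.mod_two_eq_zero_or_one n with hn | hn
    · have h1 : (m * n) % 2 ≠ 1 := by rw [Nat.mul_mod, hn]; simp
      rw [if_neg h1, if_neg (by omega : ¬ n % 2 = 1), mul_zero]
    · have h1 : (m * n) % 2 = 1 := by rw [Nat.mul_mod, hm, hn]
      rw [if_pos h1, if_pos hm, if_pos hn]
      haveI : NeZero m := ⟨by omega⟩
      haveI : NeZero n := ⟨by omega⟩
      exact jacobiSym.mul_right _ m n

theorem chi_periodic (d : ℕ) (hd : 1 ≤ d) (m : ℕ) : chi d (m + 4 * d) = chi d m := by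
  unfold chi
  by_cases hm : m % 2 = 1
  · have h1 : (m + 4 * d) % 2 = 1 := by omega
    rw [if_pos hm, if_pos h1]
    have ho : Odd m := Nat.odd_iff.2 hm
    have ho' : Odd (m + 4 * d) := Nat.odd_iff.2 h1
    rw [jacobiSym.mod_right _ ho', jacobiSym.mod_right _ ho]
    simp
  · have h1 : ¬ (m + 4 * d) % 2 = 1 := by omega
    rw [if_neg hm, if_neg h1]

theorem chi_range (d m : ℕ) : chi d m = 0 ∨ chi d m = 1 ∨ chi d m = -1 := by
  unfold chi
  split_ifs with h
  · exact jacobiSym.trichotomy _ _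
  · exact Or.inl rfl

theorem chi_neg (d : ℕ) (hd : 1 ≤ d) : chi d (4 * d - 1) = -1 := by
  have h1 : (4 * d - 1) % 2 = 1 := by omega
  have ho : Odd (4 * d - 1) := Nat.odd_iff.2 h1
  unfold chi
  rw [if_pos h1]
  have h4 : jacobiSym (4 * (-(d : ℤ))) (4 * d - 1) = jacobiSym (-(d : ℤ)) (4 * d - 1) := by
    rw [jacobiSym.mul_left]
    have h5 : jacobiSym 4 (4 * d - 1) = 1 := by
      have h6 : (4 : ℤ) = 2 ^ 2 := by norm_num
      rw [h6, jacobiSym.pow_left]
      apply jacobiSym.sq_one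
      have : Nat.Coprime 2 (4 * d - 1) := (Nat.coprime_two_left).2 ho
      exact this
    rw [h5, one_mul]
  have h5 : jacobiSym (4 * (-(d : ℤ))) (4 * d - 1) = jacobiSym (-1) (4 * d - 1) := by
    apply jacobiSym.mod_left'
    have h6 : ((4 * d - 1 : ℕ) : ℤ) = 4 * (d : ℤ) - 1 := by
      rw [Nat.cast_sub (by omega)]; push_cast; ring
    rw [h6]
    have h7 : 4 * (-(d : ℤ)) = -1 - (4 * (d : ℤ) - 1) := by ring
    rw [h7, Int.sub_emod_right]
  rw [← h4, h5, jacobiSym.at_neg_one ho]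
  exact ZMod.χ₄_nat_three_mod_four (by omega)

private theorem chi_prime (d : ℕ) (p : ℕ) [hp : Fact p.Prime] (h2 : p ≠ 2) :
    chi d p = legendreSym p (-(d : ℤ)) := by
  have hodd : p % 2 = 1 := by
    rcases hp.out.eq_two_or_odd with h | h
    · exact absurd h h2
    · exact h
  unfold chi
  rw [if_pos hodd, jacobiSym.legendreSym.to_jacobiSym]

private theorem cast_zero_iff (d : ℕ) (p : ℕ) : (((-(d : ℤ)) : ℤ) : ZMod p) = 0 ↔ p ∣ d := by
  rw [ZMod.intCast_zmod_eq_zero_iff_dvd, dvd_neg, Int.natCast_dvd_natCast]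

theorem split_iff (d : ℕ) (hd : 1 ≤ d) (p : ℕ) (hp : p.Prime) : Split d p ↔ chi d p = 1 := by
  haveI : Fact p.Prime := ⟨hp⟩
  by_cases h2 : p = 2
  · subst h2
    constructor
    · intro h
      exact absurd rfl h.2.1
    · intro h
      simp [chi] at h
  rw [chi_prime d p h2]
  constructor
  · rintro ⟨_, _, h3, r, hr⟩
    have h0 : (((-(d : ℤ)) : ℤ) : ZMod p) ≠ 0 := by
      rw [Ne, cast_zero_iff]
      intro h
      exact h3 (Int.natCast_dvd_natCast.2 h)
    rw [legendreSym.eq_one_iff p h0]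
    refine ⟨(r : ZMod p), ?_⟩
    have h4 : ((r ^ 2 + d : ℤ) : ZMod p) = 0 :=
      (ZMod.intCast_zmod_eq_zero_iff_dvd _ _).2 hr
    push_cast at h4 ⊢
    linear_combination -h4
  · intro h
    have h0 : (((-(d : ℤ)) : ℤ) : ZMod p) ≠ 0 := by
      intro h0
      rw [(legendreSym.eq_zero_iff p _).2 h0] at h
      exact zero_ne_one h
    refine ⟨hp, h2, ?_, ?_⟩
    · intro h3
      exact h0 ((cast_zero_iff d p).2 (Int.natCast_dvd_natCast.1 h3))
    · rw [legendreSym.eq_one_iff p h0] at h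
      obtain ⟨y, hy⟩ := h
      refine ⟨(y.val : ℤ), ?_⟩
      rw [← ZMod.intCast_zmod_eq_zero_iff_dvd]
      push_cast
      rw [ZMod.natCast_zmod_val]
      push_cast at hy
      linear_combination -hy

theorem chi_zero_iff (d : ℕ) (hd : 1 ≤ d) (p : ℕ) (hp : p.Prime) :
    chi d p = 0 ↔ p ∣ 2 * d := by
  haveI : Fact p.Prime := ⟨hp⟩
  by_cases h2 : p = 2
  · subst h2
    simp [chi]
  rw [chi_prime d p h2, legendreSym.eq_zero_iff, cast_zero_iff]
  constructor
  · intro h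
    exact Dvd.dvd.mul_left h 2
  · intro h
    rcases (Nat.Prime.dvd_mul hp).1 h with h | h
    · exact absurd ((Nat.prime_dvd_prime_iff_eq hp Nat.prime_two).1 h) h2
    · exact h

end Pool.Agent.DL
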