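import Mathlib

/-!
# DL CHARSUM (elementary character sums, `L(1,χ) ≠ 0`)

`chi : ℕ → ℤ` is any completely multiplicative function with values in `{-1,0,1}`, periodic mod `q`,
`chi 1 = 1`, with some value `-1`.
* `sum_bounded`: `|Σ_{m=1}^N chi m| ≤ q`: the sum over a period is zero (choose `u` with
  `chi u = -1`; then `u` is coprime to `q`: otherwise ... if `g = gcd(u,q) > 1` then
  `chi (u) = chi (u + q k)` for all `k`; simplest: multiplication by `u` -- if `u` is not a unit mod `q`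
  use that `chi` vanishes on non-units: for a prime `l ∣ q`, `chi l ≠ 0` would give
  `chi (l m + q) = chi (l (m + q/l)) = chi l chi (m + q / l)` and `= chi l chi m`, so `chi` is periodic mod
  `q / l`; hence we ASSUME in `IsRealChar` that `chi m = 0` for `m` not coprime to `q`.)
* `tail`: `|Σ_{m=M+1}^{N} chi m / m| ≤ 2 q / (M+1)`; so the series converges to `L` and
  `|Σ_{m ≤ N} chi m / m - L| ≤ 2 q / (N + 1)`.
* `L ≠ 0`: `f = 1 * chi ≥ 0`, `f (m²) ≥ 1`; `T(x) = Σ_{n ≤ x} f n / √n ≥ Σ_{m ≤ √x} 1/m → ∞`, and the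
  hyperbola method gives `T(x) = 2 √x L + O(1)`.
-/

set_option autoImplicit false

namespace Pool.Agent.DL

/-- a real nonprincipal Dirichlet character modulo `q` -/
structure IsRealChar (q : ℕ) (chi : ℕ → ℤ) : Prop where
  pos : 1 ≤ q
  one : chi 1 = 1
  mul : ∀ m n, chi (m * n) = chi m * chi n
  per : ∀ m, chi (m + q) = chi m
  rng : ∀ m, chi m = 0 ∨ chi m = 1 ∨ chi m = -1
  van : ∀ m, ¬ Nat.Coprime m q → chi m = 0
  neg : ∃ u, chi u = -1

namespace IsRealChar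

variable {q : ℕ} {chi : ℕ → ℤ}

private lemma per_mul (h : IsRealChar q chi) (m k : ℕ) : chi (q * k + m) = chi m := by
  induction k with
  | zero => simp
  | succ k ih =>
    have : q * (k + 1) + m = (q * k + m) + q := by ring
    rw [this, h.per, ih]

private lemma per_mod (h : IsRealChar q chi) (m : ℕ) : chi (m % q) = chi m := by
  conv_rhs => rw [← Nat.div_add_mod m q]
  rw [h.per_mul]

private lemma sum_period (h : IsRealChar q chi) : ∑ m ∈ Finset.range q, chi m = 0 := by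
  obtain ⟨u, hu⟩ := h.neg
  have hcop : Nat.Coprime u q := by
    by_contra hc
    have := h.van u hc
    omega
  have hq : 0 < q := h.pos
  have hmaps : ∀ m ∈ Finset.range q, u * m % q ∈ Finset.range q := fun m _ =>
    Finset.mem_range.2 (Nat.mod_lt _ hq)
  have hinj : Set.InjOn (fun m => u * m % q) (Finset.range q : Set ℕ) := by
    intro a ha b hb hab
    have ha : a < q := by simpa using ha
    have hb : b < q := by simpa using hb
    have h1 : u * a ≡ u * b [MOD q] := hab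
    have h2 : a ≡ b [MOD q] := Nat.ModEq.cancel_left_of_coprime (by
      rw [Nat.coprime_comm] at hcop; exact hcop) h1
    have h3 : a % q = b % q := h2
    rwa [Nat.mod_eq_of_lt ha, Nat.mod_eq_of_lt hb] at h3
  have hsurj : Set.SurjOn (fun m => u * m % q) (Finset.range q : Set ℕ)
      (Finset.range q : Set ℕ) :=
    Finset.surjOn_of_injOn_of_card_le _ (fun m hm => hmaps m hm) hinj le_rfl
  have h1 : ∑ m ∈ Finset.range q, chi (u * m % q) = ∑ m ∈ Finset.range q, chi m :=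
    Finset.sum_nbij (fun m => u * m % q) hmaps hinj hsurj (fun _ _ => rfl)
  have h2 : ∑ m ∈ Finset.range q, chi (u * m % q) = -∑ m ∈ Finset.range q, chi m := by
    rw [← Finset.sum_neg_distrib]
    refine Finset.sum_congr rfl fun m _ => ?_
    rw [h.per_mod, h.mul, hu]
    ring
  omega

private lemma sum_range_mul (h : IsRealChar q chi) (k : ℕ) :
    ∑ m ∈ Finset.range (q * k), chi m = 0 := by
  induction k with
  | zero => simp
  | succ k ih =>
    rw [mul_add, mul_one, Finset.sum_range_add, ih, zero_add]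
    rw [Finset.sum_congr rfl (fun m _ => h.per_mul m k)]
    exact h.sum_period

private lemma sum_range_mod (h : IsRealChar q chi) (N : ℕ) :
    ∑ m ∈ Finset.range N, chi m = ∑ m ∈ Finset.range (N % q), chi m := by
  conv_lhs => rw [← Nat.div_add_mod N q]
  rw [Finset.sum_range_add, h.sum_range_mul, zero_add]
  exact Finset.sum_congr rfl (fun m _ => h.per_mul m _)

private lemma abs_le (h : IsRealChar q chi) (m : ℕ) : |chi m| ≤ 1 := by
  rcases h.rng m with h | h | h <;> rw [h] <;> simp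

private lemma abs_sum_le (h : IsRealChar q chi) (N : ℕ) :
    |∑ m ∈ Finset.Icc 1 N, chi m| ≤ q := by
  have h1 : ∑ m ∈ Finset.Icc 1 N, chi m = ∑ m ∈ Finset.range (N + 1), chi m - chi 0 := by
    rw [Finset.range_eq_Ico, Finset.sum_eq_sum_Ico_succ_bot (Nat.succ_pos N)]
    have : Finset.Ico (0 + 1) (N + 1) = Finset.Icc 1 N := by
      ext x
      rw [Finset.mem_Ico, Finset.mem_Icc]
      omega
    rw [this]
    ring
  rw [h1, h.sum_range_mod]
  have hq : (N + 1) % q < q := Nat.mod_lt _ h.pos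
  have h2 : |∑ m ∈ Finset.range ((N + 1) % q), chi m| ≤ ((N + 1) % q : ℕ) := by
    refine (Finset.abs_sum_le_sum_abs _ _).trans ?_
    refine (Finset.sum_le_sum fun m _ => h.abs_le m).trans ?_
    simp
  have h3 := h.abs_le 0
  have h4 := abs_sub (∑ m ∈ Finset.range ((N + 1) % q), chi m) (chi 0)
  have h5 : (((N + 1) % q : ℕ) : ℤ) + 1 ≤ q := by exact_mod_cast hq
  linarith

end IsRealChar

theorem sum_bounded {q : ℕ} {chi : ℕ → ℤ} (h : IsRealChar q chi) (N : ℕ) :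
    |∑ m ∈ Finset.Icc 1 N, (chi m : ℝ)| ≤ q := by
  have h1 := h.abs_sum_le N
  have h2 : ((|∑ m ∈ Finset.Icc 1 N, chi m| : ℤ) : ℝ) ≤ ((q : ℤ) : ℝ) := by exact_mod_cast h1
  rw [Int.cast_abs, Int.cast_sum] at h2
  exact_mod_cast h2

private lemma abel_step {q : ℕ} {chi : ℕ → ℤ} (h : IsRealChar q chi) (M k : ℕ) :
    |((∑ m ∈ Finset.Icc 1 (M + k), (chi m : ℝ) / m) -
        (∑ m ∈ Finset.Icc 1 (M + k), (chi m : ℝ)) / ((M + k : ℕ) + 1 : ℝ)) -
      ((∑ m ∈ Finset.Icc 1 M, (chi m : ℝ) / m) -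
        (∑ m ∈ Finset.Icc 1 M, (chi m : ℝ)) / (M + 1 : ℝ))| ≤
      q * (1 / (M + 1 : ℝ) - 1 / ((M + k : ℕ) + 1 : ℝ)) := by
  induction k with
  | zero => simp
  | succ k ih =>
    have e1 : Finset.Icc 1 (M + (k + 1)) = insert (M + k + 1) (Finset.Icc 1 (M + k)) := by
      ext x; simp; omega
    have e2 : (M + k + 1) ∉ Finset.Icc 1 (M + k) := by simp
    have hB := sum_bounded h (M + (k + 1))
    have hBdef : ∑ m ∈ Finset.Icc 1 (M + (k + 1)), (chi m : ℝ) =
        (chi (M + k + 1) : ℝ) + ∑ m ∈ Finset.Icc 1 (M + k), (chi m : ℝ) := by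
      rw [e1, Finset.sum_insert e2]
    have hbdef : ∑ m ∈ Finset.Icc 1 (M + (k + 1)), (chi m : ℝ) / m =
        (chi (M + k + 1) : ℝ) / ((M + k + 1 : ℕ) : ℝ) +
          ∑ m ∈ Finset.Icc 1 (M + k), (chi m : ℝ) / m := by
      rw [e1, Finset.sum_insert e2]
    set B1 := ∑ m ∈ Finset.Icc 1 (M + (k + 1)), (chi m : ℝ) with hB1
    set B0 := ∑ m ∈ Finset.Icc 1 (M + k), (chi m : ℝ) with hB0
    set b1 := ∑ m ∈ Finset.Icc 1 (M + (k + 1)), (chi m : ℝ) / m with hb1
    set b0 := ∑ m ∈ Finset.Icc 1 (M + k), (chi m : ℝ) / m with hb0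
    set b := ∑ m ∈ Finset.Icc 1 M, (chi m : ℝ) / m
    set B := ∑ m ∈ Finset.Icc 1 M, (chi m : ℝ)
    push_cast at *
    have hx : (0 : ℝ) < (M : ℝ) + k + 1 := by positivity
    have hx2 : (0 : ℝ) < (M : ℝ) + (k + 1) + 1 := by positivity
    have key : (b1 - B1 / ((M : ℝ) + (k + 1) + 1)) - (b - B / ((M : ℝ) + 1)) =
        ((b0 - B0 / ((M : ℝ) + k + 1)) - (b - B / ((M : ℝ) + 1))) +
          B1 * (1 / ((M : ℝ) + k + 1) - 1 / ((M : ℝ) + (k + 1) + 1)) := by
      have hchi : (chi (M + k + 1) : ℝ) = B1 - B0 := by rw [hBdef]; ring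
      rw [hbdef, hchi]
      ring
    rw [key]
    have hd : (0 : ℝ) ≤ 1 / ((M : ℝ) + k + 1) - 1 / ((M : ℝ) + (k + 1) + 1) := by
      rw [sub_nonneg]
      apply one_div_le_one_div_of_le hx
      linarith
    refine (abs_add_le _ _).trans ?_
    rw [abs_mul, abs_of_nonneg hd]
    have := mul_le_mul_of_nonneg_right hB hd
    nlinarith

private lemma cauchy_bound {q : ℕ} {chi : ℕ → ℤ} (h : IsRealChar q chi) (M N : ℕ) (hMN : M ≤ N) :
    |(∑ m ∈ Finset.Icc 1 M, (chi m : ℝ) / m) - (∑ m ∈ Finset.Icc 1 N, (chi m : ℝ) / m)| ≤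
      2 * q / (M + 1) := by
  obtain ⟨k, rfl⟩ := Nat.exists_eq_add_of_le hMN
  have h1 := abel_step h M k
  have h2 := sum_bounded h M
  have h3 := sum_bounded h (M + k)
  set b1 := ∑ m ∈ Finset.Icc 1 (M + k), (chi m : ℝ) / m
  set B1 := ∑ m ∈ Finset.Icc 1 (M + k), (chi m : ℝ)
  set b := ∑ m ∈ Finset.Icc 1 M, (chi m : ℝ) / m
  set B := ∑ m ∈ Finset.Icc 1 M, (chi m : ℝ)
  have hx : (0 : ℝ) < (M : ℝ) + 1 := by positivity
  have hx2 : (0 : ℝ) < ((M + k : ℕ) : ℝ) + 1 := by positivity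
  have h4 : |B / ((M : ℝ) + 1)| ≤ q / ((M : ℝ) + 1) := by
    rw [abs_div, abs_of_pos hx]
    gcongr
  have h5 : |B1 / (((M + k : ℕ) : ℝ) + 1)| ≤ q / (((M + k : ℕ) : ℝ) + 1) := by
    rw [abs_div, abs_of_pos hx2]
    gcongr
  have h6 : b - b1 = -((b1 - B1 / (((M + k : ℕ) : ℝ) + 1)) - (b - B / ((M : ℝ) + 1))) +
      B / ((M : ℝ) + 1) - B1 / (((M + k : ℕ) : ℝ) + 1) := by ring
  rw [h6]
  have h7 := abs_sub (-((b1 - B1 / (((M + k : ℕ) : ℝ) + 1)) - (b - B / ((M : ℝ) + 1))) +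
      B / ((M : ℝ) + 1)) (B1 / (((M + k : ℕ) : ℝ) + 1))
  have h8 := abs_add_le (-((b1 - B1 / (((M + k : ℕ) : ℝ) + 1)) - (b - B / ((M : ℝ) + 1))))
      (B / ((M : ℝ) + 1))
  rw [abs_neg] at h8
  have h9 : (q : ℝ) * (1 / (M + 1 : ℝ) - 1 / ((M + k : ℕ) + 1 : ℝ)) =
      q / ((M : ℝ) + 1) - q / (((M + k : ℕ) : ℝ) + 1) := by ring
  have h10 : 2 * (q : ℝ) / ((M : ℝ) + 1) = q / ((M : ℝ) + 1) + q / ((M : ℝ) + 1) := by ring
  rw [h10]
  rw [h9] at h1
  linarith

theorem exists_L {q : ℕ} {chi : ℕ → ℤ} (h : IsRealChar q chi) :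
    ∃ L : ℝ, ∀ N : ℕ, |(∑ m ∈ Finset.Icc 1 N, (chi m : ℝ) / m) - L| ≤ 2 * q / (N + 1) := by
  have h0 : Filter.Tendsto (fun M : ℕ => 2 * (q : ℝ) / (M + 1)) Filter.atTop (nhds 0) := by
    have h1 := (tendsto_one_div_add_atTop_nhds_zero_nat (𝕜 := ℝ)).const_mul (2 * (q : ℝ))
    rw [mul_zero] at h1
    refine h1.congr fun M => ?_
    ring
  have hc : CauchySeq (fun N : ℕ => ∑ m ∈ Finset.Icc 1 N, (chi m : ℝ) / m) := by
    apply cauchySeq_of_le_tendsto_0' (fun M : ℕ => 2 * (q : ℝ) / (M + 1)) _ h0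
    intro M N hMN
    rw [Real.dist_eq]
    exact cauchy_bound h M N hMN
  obtain ⟨L, hL⟩ := cauchySeq_tendsto_of_complete hc
  refine ⟨L, fun N => ?_⟩
  have h1 : Filter.Tendsto (fun M : ℕ => |(∑ m ∈ Finset.Icc 1 N, (chi m : ℝ) / m) -
      ∑ m ∈ Finset.Icc 1 M, (chi m : ℝ) / m|) Filter.atTop
      (nhds |(∑ m ∈ Finset.Icc 1 N, (chi m : ℝ) / m) - L|) :=
    (tendsto_const_nhds.sub hL).abs
  apply le_of_tendsto h1
  filter_upwards [Filter.eventually_ge_atTop N] with M hM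
  exact cauchy_bound h N M hM

end Pool.Agent.DL
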