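import Pool.Agent.DL.Defs

/-!
# DL COUNT (double counting)

`qf_pos`: `a q(x,y) = (a x + b y)² + d y²`.
`log_count`: a product of distinct primes dividing a positive integer `m` divides `m`, so
`Σ_{p ∈ T, p ∣ m} log p ≤ log m ≤ log B`; exchange the sums.
-/

set_option autoImplicit false

namespace Pool.Agent.DL

theorem qf_pos (a b c d : ℤ) (ha : 0 < a) (hd : a * c - b ^ 2 = d) (hdp : 0 < d) (v : ℤ × ℤ)
    (hv : v ≠ 0) : 0 < qf a b c v := by
  obtain ⟨x, y⟩ := v
  unfold qf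
  dsimp only
  have h1 : a * (a * x ^ 2 + 2 * b * x * y + c * y ^ 2) = (a * x + b * y) ^ 2 + d * y ^ 2 := by
    rw [← hd]; ring
  by_cases hy : y = 0
  · have hx : x ≠ 0 := by
      rintro rfl
      exact hv (by rw [hy]; rfl)
    rw [hy]
    have : 0 < x ^ 2 := by positivity
    nlinarith [mul_pos ha this]
  · have h2 : 0 < d * y ^ 2 := by positivity
    have h3 : 0 < a * (a * x ^ 2 + 2 * b * x * y + c * y ^ 2) := by
      rw [h1]
      positivity
    exact (mul_pos_iff_of_pos_left ha).1 h3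

private lemma log_sum_le {m : ℤ} (hm : 0 < m) (T : Finset ℕ) (hT : ∀ p ∈ T, p.Prime) :
    ∑ p ∈ T.filter (fun p : ℕ => (p : ℤ) ∣ m), Real.log p ≤ Real.log m := by
  have hpos : ∀ p ∈ T.filter (fun p : ℕ => (p : ℤ) ∣ m), ((p : ℕ) : ℝ) ≠ 0 := by
    intro p hp
    have := (hT p (Finset.mem_filter.1 hp).1).pos
    exact_mod_cast this.ne'
  rw [← Real.log_prod hpos]
  have hdvd : ∏ p ∈ T.filter (fun p : ℕ => (p : ℤ) ∣ m), p ∣ m.toNat := by
    apply Finset.prod_primes_dvd
    · intro p hp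
      exact (hT p (Finset.mem_filter.1 hp).1).prime
    · intro p hp
      have h := (Finset.mem_filter.1 hp).2
      have h2 : ((m.toNat : ℕ) : ℤ) = m := Int.toNat_of_nonneg hm.le
      rw [← h2] at h
      exact_mod_cast h
  have hmn : 0 < m.toNat := by omega
  have hle := Nat.le_of_dvd hmn hdvd
  have hcast : ((m.toNat : ℕ) : ℝ) = (m : ℝ) := by
    have h2 : ((m.toNat : ℕ) : ℤ) = m := Int.toNat_of_nonneg hm.le
    exact_mod_cast congrArg (fun z : ℤ => (z : ℝ)) h2
  rw [← hcast]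
  apply Real.log_le_log
  · apply Finset.prod_pos
    intro p hp
    have := (hT p (Finset.mem_filter.1 hp).1).pos
    exact_mod_cast this
  · have h5 : ((∏ p ∈ T.filter (fun p : ℕ => (p : ℤ) ∣ m), p : ℕ) : ℝ) ≤ (m.toNat : ℝ) := by
      exact_mod_cast hle
    rwa [Nat.cast_prod] at h5

theorem log_count (D : Finset ℤ) (B : ℝ) (hD : ∀ m ∈ D, 0 < m ∧ Real.log m ≤ B)
    (T : Finset ℕ) (hT : ∀ p ∈ T, p.Prime) :
    ∑ p ∈ T, Real.log p * ((D.filter (fun m => (p : ℤ) ∣ m)).card : ℝ) ≤ D.card * B := by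
  calc ∑ p ∈ T, Real.log p * ((D.filter (fun m => (p : ℤ) ∣ m)).card : ℝ)
      = ∑ p ∈ T, ∑ m ∈ D, (if (p : ℤ) ∣ m then Real.log p else 0) := by
        apply Finset.sum_congr rfl
        intro p _
        rw [← Finset.sum_filter, Finset.sum_const, nsmul_eq_mul, mul_comm]
    _ = ∑ m ∈ D, ∑ p ∈ T, (if (p : ℤ) ∣ m then Real.log p else 0) := Finset.sum_comm
    _ ≤ ∑ _m ∈ D, B := by
        apply Finset.sum_le_sum
        intro m hm
        rw [← Finset.sum_filter]
        exact (log_sum_le (hD m hm).1 T hT).trans (hD m hm).2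
    _ = D.card * B := by rw [Finset.sum_const, nsmul_eq_mul]

end Pool.Agent.DL
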