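import Mathlib

/-!
# DL: distinct distances of subsets of lattices (MP_b8d6bb_co)  --  definitions

MAIN THEOREM (file `Main.lean`): for every lattice in the plane there is `c > 0` such that every
finite subset `S` with `n ≥ 2` points and diameter at most `Δ` determines at least
`c n / √(log (2 + Δ²/n) · log (2 n + Δ²))` distinct distances.
-/

set_option autoImplicit false

namespace Pool.Agent.DL

/-- the integral binary quadratic form `a x² + 2 b x y + c y²` -/
def qf (a b c : ℤ) (v : ℤ × ℤ) : ℤ := a * v.1 ^ 2 + 2 * b * v.1 * v.2 + c * v.2 ^ 2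

/-- the values of the form on the differences of distinct elements of a finite set -/
def vals (a b c : ℤ) (P : Finset (ℤ × ℤ)) : Finset ℤ :=
  P.offDiag.image (fun w => qf a b c (w.1 - w.2))

/-- odd primes `p` not dividing `d` such that `-d` is a square modulo `p` -/
def Split (d : ℤ) (p : ℕ) : Prop :=
  p.Prime ∧ p ≠ 2 ∧ ¬ (p : ℤ) ∣ d ∧ ∃ r : ℤ, (p : ℤ) ∣ r ^ 2 + d

open Classical in
/-- the split primes in `(M, N]` -/
noncomputable def sp (d : ℤ) (M N : ℕ) : Finset ℕ := (Finset.Ioc M N).filter (fun p => Split d p)

open Classical in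
/-- the weight `log p / p` on split primes, `0` elsewhere -/
noncomputable def wt (d : ℤ) (p : ℕ) : ℝ := if Split d p then Real.log p / p else 0

/-- the partial sums of the weights -/
noncomputable def SS (d : ℤ) (N : ℕ) : ℝ := ∑ p ∈ Finset.Icc 1 N, wt d p

end Pool.Agent.DL
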