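import Pool.Agent.DL.Step

/-!
# DL DES (pigeonhole)

One of the `p` cosets `t i + T ℤ²` of `sublattice` contains at least `⌈n / p⌉` points of `P`
(`Finset.exists_le_card_fiberwise_of_mul_le_card_of_maps_to` or similar); choose exactly
`⌈n / p⌉ = (n + p - 1) / p` of them and pull them back with `T` (injective);
`φ u = t i + T u`, `φ u - φ v = T (u - v)`.
-/

set_option autoImplicit false

namespace Pool.Agent.DL

theorem descend (a b c d : ℤ) (ha : 0 < a) (hd : a * c - b ^ 2 = d) (p : ℕ) (hp : Split d p)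
    (P : Finset (ℤ × ℤ)) :
    ∃ (a' b' c' : ℤ) (P' : Finset (ℤ × ℤ)) (φ : ℤ × ℤ → ℤ × ℤ),
      0 < a' ∧ a' * c' - b' ^ 2 = d ∧ P'.card = (P.card + p - 1) / p ∧
      (∀ u ∈ P', φ u ∈ P) ∧ (∀ u ∈ P', ∀ v ∈ P', u ≠ v → φ u ≠ φ v) ∧
      ∀ u v, qf a b c (φ u - φ v) = p * qf a' b' c' (u - v) := by
  classical
  obtain ⟨a', b', c', T, t, ha', hd', hT, hq, hw⟩ := sublattice a b c d ha hd p hp
  choose i v hiv using hw
  have hp0 : 0 < p := hp.1.pos
  -- a coset with many points
  obtain ⟨j, hj⟩ : ∃ j : Fin p, (P.card + p - 1) / p ≤ (P.filter (fun w => i w = j)).card := by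
    rcases Nat.eq_zero_or_pos P.card with h0 | h0
    · refine ⟨⟨0, hp0⟩, ?_⟩
      rw [h0, zero_add, Nat.div_eq_of_lt (by omega)]
      exact Nat.zero_le _
    · have hk : 1 ≤ (P.card + p - 1) / p := by
        rw [Nat.le_div_iff_mul_le hp0]; omega
      have hlt : (Finset.univ : Finset (Fin p)).card * ((P.card + p - 1) / p - 1) < P.card := by
        rw [Finset.card_univ, Fintype.card_fin]
        have h1 : (P.card + p - 1) / p * p ≤ P.card + p - 1 := Nat.div_mul_le_self _ _
        have h2 : p * ((P.card + p - 1) / p - 1) = (P.card + p - 1) / p * p - p := by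
          rw [Nat.mul_sub, mul_one, mul_comm]
        omega
      obtain ⟨j, _, hj⟩ := Finset.exists_lt_card_fiber_of_mul_lt_card_of_maps_to
        (f := i) (s := P) (t := (Finset.univ : Finset (Fin p))) (fun _ _ => Finset.mem_univ _) hlt
      exact ⟨j, by omega⟩
  obtain ⟨Q, hQ, hQc⟩ := Finset.exists_subset_card_eq hj
  have hQ' : ∀ w ∈ Q, w ∈ P ∧ w = t j + T (v w) := by
    intro w hw
    have h := Finset.mem_filter.1 (hQ hw)
    refine ⟨h.1, ?_⟩
    have h2 := hiv w
    rw [h.2] at h2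
    exact h2
  refine ⟨a', b', c', Q.image v, fun u => t j + T u, ha', hd', ?_, ?_, ?_, ?_⟩
  · rw [Finset.card_image_of_injOn, hQc]
    intro w hw w' hw' h
    have h : v w = v w' := h
    rw [(hQ' w hw).2, (hQ' w' hw').2, h]
  · intro u hu
    obtain ⟨w, hw, rfl⟩ := Finset.mem_image.1 hu
    have h := hQ' w hw
    dsimp only
    rw [← h.2]
    exact h.1
  · intro u _ v' _ huv h
    exact huv (hT (add_left_cancel h))
  · intro u v'
    have h : (t j + T u) - (t j + T v') = T (u - v') := by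
      rw [map_sub]; abel
    dsimp only
    rw [h, hq]

end Pool.Agent.DL
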