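import Pool.Agent.DL.Lat

/-!
# DL FEW
Fix `u ∈ P`: the `n - 1` vectors `v - u`, `v ≠ u`, have at least `(n-1)/4` different values by
`four_solutions` (fibres of size at most 4).
-/

set_option autoImplicit false

namespace Pool.Agent.DL

theorem few_values (al be ga : ℝ) (ha : 0 < al) (hd : 0 < al * ga - be ^ 2)
    (hirr : ¬ Rat al be ga) (P : Finset (ℤ × ℤ)) :
    ((P.card : ℝ) - 1) / 4 ≤ ((P.offDiag.image (fun w => QR al be ga (w.1 - w.2))).card : ℝ) := by
  classical
  rcases P.eq_empty_or_nonempty with rfl | ⟨u, hu⟩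
  · simp
    norm_num
  set D := P.offDiag.image (fun w => QR al be ga (w.1 - w.2)) with hD
  set T := (P.erase u).image (fun v => v - u) with hT
  have hTc : T.card = P.card - 1 := by
    rw [hT, Finset.card_image_of_injective _ (fun a b h => by simpa using h), Finset.card_erase_of_mem hu]
  have hmap : ∀ t ∈ T, QR al be ga t ∈ D := by
    intro t ht
    simp only [hT, Finset.mem_image, Finset.mem_erase] at ht
    obtain ⟨v, ⟨hv1, hv2⟩, rfl⟩ := ht
    simp only [hD, Finset.mem_image, Finset.mem_offDiag]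
    exact ⟨(v, u), ⟨hv2, hu, hv1⟩, rfl⟩
  have hcount : T.card ≤ 4 * D.card := by
    apply Finset.card_le_mul_card_image_of_maps_to hmap
    intro m _
    exact four_solutions al be ga ha hd hirr _ m (fun v hv => (Finset.mem_filter.1 hv).2)
  have h1 : 1 ≤ P.card := Finset.card_pos.2 ⟨u, hu⟩
  have h2 : P.card ≤ 4 * D.card + 1 := by omega
  have h3 : (P.card : ℝ) ≤ 4 * D.card + 1 := by exact_mod_cast h2
  linarith

end Pool.Agent.DL
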