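import Pool.Agent.DL.Defs
import Pool.Agent.DL.Abel

/-!
# DL SIN (the inequality of the induction step)

Let `C` be the constant of `split_density d`, `Z` a natural number with `½ log (Z/2) - 2 C ≥ 1`,
`c > 0` with `c (√(1 + log (2 Z)) + 2 C) ≤ 1/(2 Z)` (so `c Z ≤ 1`), `g n = c n / √(L (log n + L))`.
Strong induction over `n = |P| ≥ 2`, for all forms of determinant `d` and all `P`.
* `n < Z`: `vals` is non-empty, `g n ≤ c n ≤ 1`.
* `n ≥ Z`, `N = n / Z`.  For every split prime `p < n` (descend, `|P'| = ⌈n/p⌉ ≥ 2`, values of the new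
  form times `p` are values of the old one divisible by `p`; `q' = q/p ≤ (n/p) exp L ≤ |P'| exp L`):
  `#{m ∈ vals : p ∣ m} ≥ max (1, g ⌈n/p⌉) ≥ max (1, g(n/p))` (`g` increasing).  By `log_count`
  (`log m ≤ log n + L = A`):
  `A |vals| ≥ Σ_{p ≤ N} log p · g(n/p) + Σ_{N < p ≤ n-1} log p`; the first sum is
  `(c n/√L) Σ wt(p)/√(log(n/p)+L) ≥ (c n/√L)(√A - √(log (2Z) + L) - 2C)` by `abel`, the second is at
  least `N (SS(n-1) - SS(N)) ≥ N (½ log ((n-1)/N) - 2C) ≥ N ≥ n/(2Z)`.
  Since `L ≥ 1`: `(c n/√L)(√(log (2Z)+L) + 2C) ≤ c n (√(1 + log (2Z)) + 2C) ≤ n/(2Z)`, so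
  `A |vals| ≥ (c n/√L) √A`.
-/

set_option autoImplicit false

namespace Pool.Agent.DL

/-- the lower bound function -/
noncomputable def gg (c L x : ℝ) : ℝ := c * x / √(L * (Real.log x + L))

theorem gg_mono (c L x y : ℝ) (hc : 0 ≤ c) (hL : 1 ≤ L) (hx : 1 ≤ x) (hxy : x ≤ y) :
    gg c L x ≤ gg c L y := by
  unfold gg
  have hx0 : 0 < x := by linarith
  have hy0 : 0 < y := by linarith
  have hlx : 0 ≤ Real.log x := Real.log_nonneg hx
  have hly : 0 ≤ Real.log y := Real.log_nonneg (by linarith)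
  have hA : 1 ≤ Real.log x + L := by linarith
  have hB : 1 ≤ Real.log y + L := by linarith
  have hLA : 0 < L * (Real.log x + L) := by positivity
  have hLB : 0 < L * (Real.log y + L) := by positivity
  rw [div_le_div_iff₀ (Real.sqrt_pos.2 hLA) (Real.sqrt_pos.2 hLB)]
  have key : x * √(L * (Real.log y + L)) ≤ y * √(L * (Real.log x + L)) := by
    have e1 : x * √(L * (Real.log y + L)) = √(x ^ 2 * (L * (Real.log y + L))) := by
      rw [Real.sqrt_mul (sq_nonneg x), Real.sqrt_sq hx0.le]
    have e2 : y * √(L * (Real.log x + L)) = √(y ^ 2 * (L * (Real.log x + L))) := by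
      rw [Real.sqrt_mul (sq_nonneg y), Real.sqrt_sq hy0.le]
    rw [e1, e2]
    apply Real.sqrt_le_sqrt
    -- log y ≤ log x + (y/x - 1)
    have h1 : Real.log y ≤ Real.log x + (y / x - 1) := by
      have := Real.log_le_sub_one_of_pos (div_pos hy0 hx0)
      rw [Real.log_div hy0.ne' hx0.ne'] at this
      linarith
    have h2 : x * Real.log y ≤ x * Real.log x + (y - x) := by
      have := mul_le_mul_of_nonneg_left h1 hx0.le
      have e : x * (y / x) = y := by field_simp
      nlinarith
    have h3 : x ^ 2 * (Real.log y + L) ≤ y ^ 2 * (Real.log x + L) := by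
      have h4 : x ^ 2 * (Real.log y + L) ≤ x ^ 2 * (Real.log x + L) + x * (y - x) := by nlinarith
      have h5 : x * (y - x) ≤ (y ^ 2 - x ^ 2) * (Real.log x + L) := by
        have h6 : 0 ≤ y - x := by linarith
        have h7 : x * (y - x) ≤ (y + x) * (y - x) := by nlinarith
        have h8 : (y + x) * (y - x) * 1 ≤ (y + x) * (y - x) * (Real.log x + L) :=
          mul_le_mul_of_nonneg_left hA (by positivity)
        nlinarith
      nlinarith
    have hL0 : 0 ≤ L := by linarith
    nlinarith [mul_le_mul_of_nonneg_left h3 hL0]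
  nlinarith [mul_le_mul_of_nonneg_left key hc]

/-- the analytic heart of the induction step, with the combinatorial input as a hypothesis -/
theorem step_ineq (d : ℕ) (C : ℝ) (hC : 0 ≤ C)
    (hS : ∀ N : ℕ, 1 ≤ N → |SS d N - Real.log N / 2| ≤ C)
    (Z : ℕ) (hZ : 2 ≤ Z) (hZ2 : 1 ≤ Real.log (Z / 2) / 2 - 2 * C)
    (c : ℝ) (hc : 0 < c) (hc2 : c * (√(1 + Real.log (2 * Z)) + 2 * C) ≤ 1 / (2 * Z))
    (n : ℕ) (hn : Z ≤ n) (L : ℝ) (hL : 1 ≤ L) (V : ℝ) (D : ℕ → ℝ)
    (hD1 : ∀ p, Split d p → p < n → 1 ≤ D p)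
    (hD2 : ∀ p, Split d p → p < n → gg c L (n / p) ≤ D p)
    (hV : ∑ p ∈ sp d 0 (n - 1), Real.log p * D p ≤ V * (Real.log n + L)) :
    gg c L n ≤ V := by
  classical
  set N := n / Z with hN
  have hZ0 : 0 < Z := by omega
  have hN1 : 1 ≤ N := by
    rw [hN]
    exact (Nat.one_le_div_iff hZ0).2 hn
  have hn2 : 2 ≤ n := le_trans hZ hn
  have hNn : N ≤ n - 1 := by
    have h1 : N * Z ≤ n := Nat.div_mul_le_self n Z
    have h2 : N * 2 ≤ N * Z := Nat.mul_le_mul_left _ hZ
    omega
  have hnpos : (0 : ℝ) < n := by exact_mod_cast (by omega : 0 < n)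
  have hn1r : (1 : ℝ) ≤ n := by exact_mod_cast (by omega : 1 ≤ n)
  have hZr : (2 : ℝ) ≤ Z := by exact_mod_cast hZ
  have hNr : (1 : ℝ) ≤ N := by exact_mod_cast hN1
  have hlogn : 0 ≤ Real.log n := Real.log_nonneg hn1r
  set A := Real.log n + L with hA
  have hA1 : 1 ≤ A := by linarith
  have hL0 : 0 < L := by linarith
  have hsL : 1 ≤ √L := by
    rw [show (1 : ℝ) = √1 by simp]
    exact Real.sqrt_le_sqrt hL
  have hsA : 0 < √A := Real.sqrt_pos.2 (by linarith)
  -- splitting the sum
  have hsplit : sp d 0 (n - 1) = sp d 0 N ∪ sp d N (n - 1) := by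
    ext p
    simp only [sp, Finset.mem_union, Finset.mem_filter, Finset.mem_Ioc]
    constructor
    · rintro ⟨⟨h1, h2⟩, h3⟩
      by_cases h : p ≤ N
      · exact Or.inl ⟨⟨h1, h⟩, h3⟩
      · exact Or.inr ⟨⟨by omega, h2⟩, h3⟩
    · rintro (⟨⟨h1, h2⟩, h3⟩ | ⟨⟨h1, h2⟩, h3⟩)
      · exact ⟨⟨h1, by omega⟩, h3⟩
      · exact ⟨⟨by omega, h2⟩, h3⟩
  have hdisj : Disjoint (sp d 0 N) (sp d N (n - 1)) := by
    rw [Finset.disjoint_left]
    intro p h1 h2
    simp only [sp, Finset.mem_filter, Finset.mem_Ioc] at h1 h2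
    omega
  rw [hsplit, Finset.sum_union hdisj] at hV
  -- the first sum
  have hfirst : c * n / √L * (√A - √(Real.log (2 * Z) + L) - 2 * C) ≤
      ∑ p ∈ sp d 0 N, Real.log p * D p := by
    have hab := abel (wt d) C hC hS Z n (by omega) hn L hL
    have h1 : c * n / √L * ∑ k ∈ Finset.Icc 1 (n / Z), wt d k / √(Real.log (n / k) + L) ≤
        ∑ p ∈ sp d 0 N, Real.log p * D p := by
      have e : ∑ k ∈ Finset.Icc 1 (n / Z), wt d k / √(Real.log (n / k) + L) =
          ∑ k ∈ sp d 0 N, Real.log k / k / √(Real.log (n / k) + L) := by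
        have e1 : sp d 0 N = (Finset.Icc 1 (n / Z)).filter (fun p => Split d p) := by
          ext p
          simp only [sp, Finset.mem_filter, Finset.mem_Ioc, Finset.mem_Icc, ← hN]
          constructor
          · rintro ⟨⟨h1, h2⟩, h3⟩
            exact ⟨⟨by omega, h2⟩, h3⟩
          · rintro ⟨⟨h1, h2⟩, h3⟩
            exact ⟨⟨by omega, h2⟩, h3⟩
        rw [e1, Finset.sum_filter]
        apply Finset.sum_congr rfl
        intro k _
        unfold wt
        by_cases hk : Split d k
        · simp [hk]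
        · simp [hk]
      rw [e, Finset.mul_sum]
      apply Finset.sum_le_sum
      intro p hp
      simp only [sp, Finset.mem_filter, Finset.mem_Ioc] at hp
      obtain ⟨⟨hp0, hpN⟩, hps⟩ := hp
      have hp0r : (0 : ℝ) < p := by exact_mod_cast hp0
      have hlogp : 0 ≤ Real.log p := Real.log_nonneg (by exact_mod_cast hp0)
      have h2 := hD2 p hps (by omega)
      have h3 := mul_le_mul_of_nonneg_left h2 hlogp
      refine le_trans (le_of_eq ?_) h3
      unfold gg
      have hle : (1 : ℝ) ≤ n / p := by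
        rw [le_div_iff₀ hp0r, one_mul]
        exact_mod_cast (by omega : p ≤ n)
      have hpos : 0 ≤ Real.log (n / p) + L := by
        have := Real.log_nonneg hle
        linarith
      rw [Real.sqrt_mul hL0.le]
      have hs1 : √L ≠ 0 := by positivity
      have hs2 : √(Real.log (n / p) + L) ≠ 0 := by
        have := Real.log_nonneg hle
        exact (Real.sqrt_pos.2 (by linarith)).ne'
      field_simp
    refine le_trans ?_ h1
    exact mul_le_mul_of_nonneg_left hab (by positivity)
  -- the second sum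
  have hsecond : (N : ℝ) ≤ ∑ p ∈ sp d N (n - 1), Real.log p * D p := by
    have h1 : ∑ p ∈ sp d N (n - 1), (N : ℝ) * wt d p ≤ ∑ p ∈ sp d N (n - 1), Real.log p * D p := by
      apply Finset.sum_le_sum
      intro p hp
      simp only [sp, Finset.mem_filter, Finset.mem_Ioc] at hp
      obtain ⟨⟨hpN, hpn⟩, hps⟩ := hp
      have hp1 : 1 ≤ p := by omega
      have hp0r : (0 : ℝ) < p := by exact_mod_cast (by omega : 0 < p)
      have hlogp : 0 ≤ Real.log p := Real.log_nonneg (by exact_mod_cast hp1)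
      have hNp : (N : ℝ) ≤ p := by exact_mod_cast (by omega : N ≤ p)
      have h2 := hD1 p hps (by omega)
      unfold wt
      rw [if_pos hps]
      have h3 : (N : ℝ) * (Real.log p / p) ≤ Real.log p := by
        have : (N : ℝ) / p ≤ 1 := (div_le_one hp0r).2 hNp
        calc (N : ℝ) * (Real.log p / p) = Real.log p * (N / p) := by ring
          _ ≤ Real.log p * 1 := mul_le_mul_of_nonneg_left this hlogp
          _ = Real.log p := mul_one _
      have h4 : Real.log p * 1 ≤ Real.log p * D p := mul_le_mul_of_nonneg_left h2 hlogp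
      linarith
    refine le_trans ?_ h1
    rw [← Finset.mul_sum]
    have h2 : ∑ p ∈ sp d N (n - 1), wt d p = SS d (n - 1) - SS d N := by
      unfold SS
      have e1 : Finset.Icc 1 (n - 1) = Finset.Icc 1 N ∪ Finset.Ioc N (n - 1) := by
        ext x
        simp only [Finset.mem_union, Finset.mem_Icc, Finset.mem_Ioc]
        omega
      have e2 : Disjoint (Finset.Icc 1 N) (Finset.Ioc N (n - 1)) := by
        rw [Finset.disjoint_left]
        intro x h1 h2
        simp only [Finset.mem_Icc, Finset.mem_Ioc] at h1 h2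
        omega
      rw [e1, Finset.sum_union e2]
      unfold sp
      rw [Finset.sum_filter]
      have e3 : ∑ a ∈ Finset.Ioc N (n - 1), (if Split d a then wt d a else 0) =
          ∑ a ∈ Finset.Ioc N (n - 1), wt d a := by
        apply Finset.sum_congr rfl
        intro a _
        unfold wt
        by_cases h : Split d a
        · simp [h]
        · simp [h]
      rw [e3]
      ring
    rw [h2]
    have h3 := abs_le.1 (hS (n - 1) (by omega))
    have h4 := abs_le.1 (hS N hN1)
    have h5 : Real.log (Z / 2) ≤ Real.log ((n - 1 : ℕ) : ℝ) - Real.log N := by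
      have hn1 : (0 : ℝ) < ((n - 1 : ℕ) : ℝ) := by exact_mod_cast (by omega : 0 < n - 1)
      rw [← Real.log_div hn1.ne' (by positivity)]
      apply Real.log_le_log (by positivity)
      rw [div_le_div_iff₀ (by norm_num) (by positivity)]
      have h6 : N * Z ≤ n := Nat.div_mul_le_self n Z
      have h7 : Z * N ≤ (n - 1) * 2 := by
        rw [mul_comm]
        omega
      exact_mod_cast h7
    have h6 : 1 ≤ SS d (n - 1) - SS d N := by linarith [h3.1, h4.2]
    nlinarith
  -- conclusion
  have hNn2 : (n : ℝ) * (1 / (2 * Z)) ≤ N := by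
    have h1 : n < Z * (N + 1) := by
      rw [hN]
      exact Nat.lt_mul_div_succ n hZ0
    have h2 : n ≤ 2 * Z * N := by nlinarith
    have h3 : (n : ℝ) ≤ 2 * Z * N := by exact_mod_cast h2
    rw [mul_one_div, div_le_iff₀ (by positivity)]
    linarith
  have hlog2Z : 0 ≤ Real.log (2 * Z) := Real.log_nonneg (by linarith)
  have herr : c * n / √L * (√(Real.log (2 * Z) + L) + 2 * C) ≤ n * (1 / (2 * Z)) := by
    have h1 : √(Real.log (2 * Z) + L) ≤ √L * √(1 + Real.log (2 * Z)) := by
      rw [← Real.sqrt_mul hL0.le]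
      apply Real.sqrt_le_sqrt
      nlinarith
    have h2 : 2 * C ≤ √L * (2 * C) := by nlinarith
    have h3 : √(Real.log (2 * Z) + L) + 2 * C ≤ √L * (√(1 + Real.log (2 * Z)) + 2 * C) := by
      linarith
    have h4 : c * n / √L * (√(Real.log (2 * Z) + L) + 2 * C) ≤
        c * n / √L * (√L * (√(1 + Real.log (2 * Z)) + 2 * C)) :=
      mul_le_mul_of_nonneg_left h3 (by positivity)
    refine le_trans h4 ?_
    have h5 : c * n / √L * (√L * (√(1 + Real.log (2 * Z)) + 2 * C)) =
        n * (c * (√(1 + Real.log (2 * Z)) + 2 * C)) := by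
      have : √L ≠ 0 := by positivity
      field_simp
    rw [h5]
    exact mul_le_mul_of_nonneg_left hc2 hnpos.le
  have hmain : c * n / √L * √A ≤ V * A := by
    have h1 : c * n / √L * (√A - √(Real.log (2 * Z) + L) - 2 * C) =
        c * n / √L * √A - c * n / √L * (√(Real.log (2 * Z) + L) + 2 * C) := by ring
    rw [h1] at hfirst
    linarith
  unfold gg
  rw [← hA, Real.sqrt_mul hL0.le]
  have hAA : √A * √A = A := Real.mul_self_sqrt (by linarith)
  have h9 : c * n / (√L * √A) = c * n / √L * √A / A := by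
    rw [← hAA]
    have : √L ≠ 0 := by positivity
    have h' : √(√A * √A) = √A := by rw [hAA]
    rw [h']
    field_simp
  rw [h9, div_le_iff₀ (by linarith)]
  exact hmain

end Pool.Agent.DL
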