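import Pool.Agent.DL.LNZ
import Pool.Agent.Helper35.Primes

/-!
# DL MERTENS (Mertens for a real character)

`log n = Σ_{k ∣ n} Λ k`, hence `Σ_{n ≤ N} χ(n) log n / n = Σ_{k ≤ N} χ(k) Λ(k)/k · A(N/k)` with
`A y = Σ_{m ≤ y} χ m / m`, `|A (N/k) - L| ≤ 2 q /(N/k + 1) ≤ 2 q k / N`.  The left side is bounded
(partial summation, `|Σ χ| ≤ q`), `Σ_{k ≤ N} Λ k ≤ C N`, so `L · Σ χ(k) Λ(k)/k` is bounded; the
higher prime powers contribute at most `log 4 + 7` (comparison of the two Mertens sums).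
-/

set_option autoImplicit false

namespace Pool.Agent.DL

open ArithmeticFunction

theorem mer_range {q : ℕ} {chi : ℕ → ℤ} (h : IsRealChar q chi) (n : ℕ) :
    |(chi n : ℝ)| ≤ 1 := by
  rcases h.rng n with h1 | h1 | h1 <;> rw [h1] <;> norm_num

/-- Step of the partial summation. -/
theorem mer_step (N : ℕ) (hN : 1 ≤ N) :
    |Real.log N / N - Real.log ((N + 1 : ℕ) : ℝ) / ((N + 1 : ℕ) : ℝ)| ≤
      (Real.log N + 2) / N - (Real.log ((N + 1 : ℕ) : ℝ) + 2) / ((N + 1 : ℕ) : ℝ) := by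
  have hN0 : (0 : ℝ) < N := by exact_mod_cast hN
  have hN1 : (1 : ℝ) ≤ N := by exact_mod_cast hN
  have hlogN : 0 ≤ Real.log N := Real.log_nonneg hN1
  set δ := Real.log (1 + 1 / (N : ℝ)) with hδ
  have e1 : Real.log ((N + 1 : ℕ) : ℝ) = Real.log N + δ := by
    rw [hδ, ← Real.log_mul hN0.ne' (by positivity)]
    congr 1
    push_cast
    field_simp
  have hδ1 : δ ≤ 1 / N := by
    have := Real.log_le_sub_one_of_pos (x := 1 + 1 / (N : ℝ)) (by positivity)
    linarith
  have hδN : (N : ℝ) * δ ≤ 1 := by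
    have := mul_le_mul_of_nonneg_left hδ1 hN0.le
    have e : (N : ℝ) * (1 / N) = 1 := by field_simp
    linarith
  rw [e1]
  have hc : (((N + 1 : ℕ) : ℝ)) = (N : ℝ) + 1 := by push_cast; ring
  rw [hc]
  have e2 : Real.log N / N - (Real.log N + δ) / ((N : ℝ) + 1) =
      (Real.log N - N * δ) / (N * (N + 1)) := by
    field_simp
    ring
  have e3 : (Real.log N + 2) / N - (Real.log N + δ + 2) / ((N : ℝ) + 1) =
      (Real.log N + 2 - N * δ) / (N * (N + 1)) := by
    field_simp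
    ring
  rw [e2, e3, abs_div, abs_of_pos (show (0 : ℝ) < N * (N + 1) by positivity)]
  refine div_le_div_of_nonneg_right ?_ (by positivity)
  rw [abs_le]
  constructor
  · linarith
  · linarith

theorem mer_bounded {q : ℕ} {chi : ℕ → ℤ} (h : IsRealChar q chi) (N : ℕ) :
    |∑ n ∈ Finset.Icc 1 N, (chi n : ℝ) / n * Real.log n| ≤ 2 * q := by
  rcases Nat.eq_zero_or_pos N with h0 | h0
  · subst h0
    simp
  have key : ∀ N : ℕ, 1 ≤ N →
      |∑ n ∈ Finset.Icc 1 N, (chi n : ℝ) / n * Real.log n -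
        (∑ n ∈ Finset.Icc 1 N, (chi n : ℝ)) * (Real.log N / N)| ≤
        q * (2 - (Real.log N + 2) / N) := by
    intro N hN
    induction N, hN using Nat.le_induction with
    | base => simp
    | succ N hN ih =>
      rw [Finset.sum_Icc_succ_top (by omega), Finset.sum_Icc_succ_top (by omega)]
      have e1 : ∑ n ∈ Finset.Icc 1 N, (chi n : ℝ) / n * Real.log n +
          (chi (N + 1) : ℝ) / ((N + 1 : ℕ) : ℝ) * Real.log ((N + 1 : ℕ) : ℝ) -
          (∑ n ∈ Finset.Icc 1 N, (chi n : ℝ) + (chi (N + 1) : ℝ)) *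
            (Real.log ((N + 1 : ℕ) : ℝ) / ((N + 1 : ℕ) : ℝ)) =
          (∑ n ∈ Finset.Icc 1 N, (chi n : ℝ) / n * Real.log n -
            (∑ n ∈ Finset.Icc 1 N, (chi n : ℝ)) * (Real.log N / N)) +
          (∑ n ∈ Finset.Icc 1 N, (chi n : ℝ)) *
            (Real.log N / N - Real.log ((N + 1 : ℕ) : ℝ) / ((N + 1 : ℕ) : ℝ)) := by ring
      rw [e1]
      refine (abs_add_le _ _).trans ?_
      rw [abs_mul]
      have h1 := mul_le_mul (sum_bounded h N) (mer_step N hN) (abs_nonneg _) (Nat.cast_nonneg q)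
      have h2 : (q : ℝ) * (2 - (Real.log N + 2) / N) + q * ((Real.log N + 2) / N -
          (Real.log ((N + 1 : ℕ) : ℝ) + 2) / ((N + 1 : ℕ) : ℝ)) =
          q * (2 - (Real.log ((N + 1 : ℕ) : ℝ) + 2) / ((N + 1 : ℕ) : ℝ)) := by ring
      linarith
  have hN0 : (0 : ℝ) < N := by exact_mod_cast h0
  have hlogN : 0 ≤ Real.log N := Real.log_nonneg (by exact_mod_cast h0)
  have h1 := key N h0
  have h2 := sum_bounded h N
  have e1 : ∑ n ∈ Finset.Icc 1 N, (chi n : ℝ) / n * Real.log n =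
      (∑ n ∈ Finset.Icc 1 N, (chi n : ℝ) / n * Real.log n -
        (∑ n ∈ Finset.Icc 1 N, (chi n : ℝ)) * (Real.log N / N)) +
      (∑ n ∈ Finset.Icc 1 N, (chi n : ℝ)) * (Real.log N / N) := by ring
  rw [e1]
  refine (abs_add_le _ _).trans ?_
  rw [abs_mul, abs_of_nonneg (show 0 ≤ Real.log N / N by positivity)]
  have h3 : |∑ n ∈ Finset.Icc 1 N, (chi n : ℝ)| * (Real.log N / N) ≤ q * (Real.log N / N) :=
    mul_le_mul_of_nonneg_right h2 (by positivity)
  have h4 : (q : ℝ) * (2 - (Real.log N + 2) / N) + q * (Real.log N / N) = 2 * q - q * (2 / N) := by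
    field_simp
    ring
  have h5 : 0 ≤ (q : ℝ) * (2 / N) := by positivity
  linarith

/-- `Λ(n) chi(n) / n`. -/
noncomputable def merF (chi : ℕ → ℤ) : ArithmeticFunction ℝ :=
  ⟨fun n => vonMangoldt n * ((chi n : ℝ) / n), by simp⟩

/-- `chi(n) / n`. -/
noncomputable def merG (chi : ℕ → ℤ) : ArithmeticFunction ℝ :=
  ⟨fun n => (chi n : ℝ) / n, by simp⟩

theorem mer_mul {q : ℕ} {chi : ℕ → ℤ} (h : IsRealChar q chi) (n : ℕ) :
    (merF chi * merG chi) n = (chi n : ℝ) / n * Real.log n := by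
  rw [ArithmeticFunction.mul_apply]
  have h1 : ∀ x ∈ n.divisorsAntidiagonal, merF chi x.1 * merG chi x.2 =
      (chi n : ℝ) / n * vonMangoldt x.1 := by
    intro x hx
    rw [Nat.mem_divisorsAntidiagonal] at hx
    show vonMangoldt x.1 * ((chi x.1 : ℝ) / x.1) * ((chi x.2 : ℝ) / x.2) = _
    rw [← hx.1, h.mul]
    have hx1 : (x.1 : ℝ) ≠ 0 := by
      intro h2
      apply hx.2
      rw [← hx.1, Nat.cast_eq_zero.1 h2, zero_mul]
    have hx2 : (x.2 : ℝ) ≠ 0 := by
      intro h2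
      apply hx.2
      rw [← hx.1, Nat.cast_eq_zero.1 h2, mul_zero]
    push_cast
    field_simp
  have h2 := Nat.sum_divisorsAntidiagonal (fun i _ => (vonMangoldt i : ℝ)) (n := n)
  rw [Finset.sum_congr rfl h1, ← Finset.mul_sum]
  rw [h2, vonMangoldt_sum]

theorem mer_identity {q : ℕ} {chi : ℕ → ℤ} (h : IsRealChar q chi) (N : ℕ) :
    ∑ n ∈ Finset.Icc 1 N, (chi n : ℝ) / n * Real.log n =
      ∑ k ∈ Finset.Icc 1 N, (vonMangoldt k * ((chi k : ℝ) / k)) *
        ∑ m ∈ Finset.Icc 1 (N / k), (chi m : ℝ) / m := by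
  have h1 := sum_Ioc_mul_eq_sum_sum (merF chi) (merG chi) N
  simp_rw [mer_mul h] at h1
  exact h1

theorem mer_powers (N : ℕ) (hN : 1 ≤ N) :
    ∑ k ∈ (Finset.Icc 1 N).filter (fun k => ¬ k.Prime), vonMangoldt k / k ≤ Real.log 4 + 7 := by
  have hN0 : (0 : ℝ) < N := by exact_mod_cast hN
  -- `Σ Λ(k)/k ≤ log N + log 4 + 4`
  have h1 : ∑ k ∈ Finset.Icc 1 N, vonMangoldt k / (k : ℝ) ≤ Real.log N + (Real.log 4 + 4) := by
    have e1 : ∑ n ∈ Finset.Ioc 0 N, Real.log n =
        ∑ k ∈ Finset.Ioc 0 N, vonMangoldt k * (((N / k : ℕ)) : ℝ) := by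
      have := sum_Ioc_mul_zeta_eq_sum (R := ℝ) vonMangoldt N
      rw [vonMangoldt_mul_zeta] at this
      exact this
    have h2 : ∑ n ∈ Finset.Ioc 0 N, Real.log n ≤ N * Real.log N := by
      calc ∑ n ∈ Finset.Ioc 0 N, Real.log n ≤ ∑ n ∈ Finset.Ioc 0 N, Real.log N := by
            refine Finset.sum_le_sum fun n hn => ?_
            rw [Finset.mem_Ioc] at hn
            exact Real.log_le_log (by exact_mod_cast hn.1) (by exact_mod_cast hn.2)
        _ = N * Real.log N := by simp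
    have h3 : ∑ k ∈ Finset.Ioc 0 N, vonMangoldt k * ((N : ℝ) / k - 1) ≤
        ∑ k ∈ Finset.Ioc 0 N, vonMangoldt k * (((N / k : ℕ)) : ℝ) := by
      refine Finset.sum_le_sum fun k hk => ?_
      rw [Finset.mem_Ioc] at hk
      have hk0 : (0 : ℝ) < k := by exact_mod_cast hk.1
      refine mul_le_mul_of_nonneg_left ?_ vonMangoldt_nonneg
      have h4 : (N : ℝ) < k * ((N / k : ℕ) + 1) := by
        exact_mod_cast Nat.lt_mul_div_succ N hk.1
      have h5 : (N : ℝ) / k < ((N / k : ℕ) : ℝ) + 1 := by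
        rw [div_lt_iff₀ hk0]
        linarith
      linarith
    have h4 : ∑ k ∈ Finset.Ioc 0 N, vonMangoldt k ≤ (Real.log 4 + 4) * N := by
      have := Chebyshev.psi_le_const_mul_self (x := (N : ℝ)) hN0.le
      unfold Chebyshev.psi at this
      rwa [Nat.floor_natCast] at this
    have e2 : ∑ k ∈ Finset.Ioc 0 N, vonMangoldt k * ((N : ℝ) / k - 1) =
        N * ∑ k ∈ Finset.Ioc 0 N, vonMangoldt k / (k : ℝ) -
          ∑ k ∈ Finset.Ioc 0 N, vonMangoldt k := by
      rw [Finset.mul_sum, ← Finset.sum_sub_distrib]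
      refine Finset.sum_congr rfl fun k _ => ?_
      ring
    have h5 : N * ∑ k ∈ Finset.Ioc 0 N, vonMangoldt k / (k : ℝ) ≤
        N * (Real.log N + (Real.log 4 + 4)) := by
      rw [e2] at h3
      linarith
    exact le_of_mul_le_mul_left h5 hN0
  have h2 := Pool.Agent.Helper35.mertens_lower N hN
  have h3 : ∑ k ∈ Finset.Icc 1 N, vonMangoldt k / (k : ℝ) =
      ∑ k ∈ (Finset.Icc 1 N).filter Nat.Prime, vonMangoldt k / (k : ℝ) +
      ∑ k ∈ (Finset.Icc 1 N).filter (fun k => ¬ k.Prime), vonMangoldt k / (k : ℝ) :=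
    (Finset.sum_filter_add_sum_filter_not _ _ _).symm
  have h4 : ∑ k ∈ (Finset.Icc 1 N).filter Nat.Prime, vonMangoldt k / (k : ℝ) =
      ∑ p ∈ Pool.Agent.Helper35.prm 0 N, Real.log p / p := by
    have e : (Finset.Icc 1 N).filter Nat.Prime = Pool.Agent.Helper35.prm 0 N := by
      ext p
      rw [Pool.Agent.Helper35.mem_prm, Finset.mem_filter, Finset.mem_Icc]
      constructor
      · rintro ⟨⟨h5, h6⟩, h7⟩; exact ⟨⟨by omega, h6⟩, h7⟩
      · rintro ⟨⟨h5, h6⟩, h7⟩; exact ⟨⟨by omega, h6⟩, h7⟩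
    rw [e]
    refine Finset.sum_congr rfl fun p hp => ?_
    rw [Pool.Agent.Helper35.mem_prm] at hp
    rw [vonMangoldt_apply_prime hp.2]
  linarith

theorem mertens_char {q : ℕ} {chi : ℕ → ℤ} (h : IsRealChar q chi) :
    ∃ C : ℝ, 0 ≤ C ∧ ∀ N : ℕ,
      |∑ p ∈ (Finset.Icc 1 N).filter Nat.Prime, (chi p : ℝ) * (Real.log p / p)| ≤ C := by
  obtain ⟨L, hL⟩ := exists_L h
  have hL0 := L_ne_zero h L hL
  have hLpos : 0 < |L| := abs_pos.2 hL0
  have hlog4 : 0 ≤ Real.log 4 := Real.log_nonneg (by norm_num)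
  set C1 : ℝ := (2 * q + 2 * q * (Real.log 4 + 4)) / |L| with hC1
  have hC1' : 0 ≤ C1 := by positivity
  refine ⟨C1 + (Real.log 4 + 7), by positivity, fun N => ?_⟩
  rcases Nat.eq_zero_or_pos N with h0 | h0
  · subst h0
    simp only [not_le, zero_lt_one,
      Finset.Icc_eq_empty, Finset.filter_empty, Finset.sum_empty, abs_zero]
    positivity
  have hN0 : (0 : ℝ) < N := by exact_mod_cast h0
  -- the sum over all `k`
  have h1 : |∑ k ∈ Finset.Icc 1 N, (vonMangoldt k * ((chi k : ℝ) / k))| ≤ C1 := by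
    have h2 := mer_bounded h N
    rw [mer_identity h N] at h2
    have h3 : |∑ k ∈ Finset.Icc 1 N, (vonMangoldt k * ((chi k : ℝ) / k)) *
        ((∑ m ∈ Finset.Icc 1 (N / k), (chi m : ℝ) / m) - L)| ≤ 2 * q * (Real.log 4 + 4) := by
      refine (Finset.abs_sum_le_sum_abs _ _).trans ?_
      have h4 : ∀ k ∈ Finset.Icc 1 N, |(vonMangoldt k * ((chi k : ℝ) / k)) *
          ((∑ m ∈ Finset.Icc 1 (N / k), (chi m : ℝ) / m) - L)| ≤
          vonMangoldt k * (2 * q / N) := by
        intro k hk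
        rw [Finset.mem_Icc] at hk
        have hk0 : (0 : ℝ) < k := by exact_mod_cast hk.1
        have h5 : (N : ℝ) < k * ((N / k : ℕ) + 1) := by
          exact_mod_cast Nat.lt_mul_div_succ N hk.1
        have h6 := hL (N / k)
        rw [abs_mul, abs_mul, abs_of_nonneg (vonMangoldt_nonneg (n := k)), abs_div,
          abs_of_pos hk0]
        have h7 : 2 * (q : ℝ) / (((N / k : ℕ) : ℝ) + 1) ≤ 2 * q * k / N := by
          rw [div_le_div_iff₀ (by positivity) hN0]
          have : 2 * (q : ℝ) * N ≤ 2 * q * (k * ((N / k : ℕ) + 1)) :=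
            mul_le_mul_of_nonneg_left h5.le (by positivity)
          linarith
        calc vonMangoldt k * (|(chi k : ℝ)| / k) *
              |(∑ m ∈ Finset.Icc 1 (N / k), (chi m : ℝ) / m) - L|
            ≤ vonMangoldt k * (1 / k) * (2 * q * k / N) := by
              refine mul_le_mul ?_ (h6.trans h7) (abs_nonneg _) ?_
              · refine mul_le_mul_of_nonneg_left ?_ vonMangoldt_nonneg
                exact div_le_div_of_nonneg_right (mer_range h k) hk0.le
              · have := vonMangoldt_nonneg (n := k)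
                positivity
          _ = vonMangoldt k * (2 * q / N) := by
              field_simp
      refine (Finset.sum_le_sum h4).trans ?_
      rw [← Finset.sum_mul]
      have h5 : ∑ k ∈ Finset.Icc 1 N, vonMangoldt k ≤ (Real.log 4 + 4) * N := by
        have := Chebyshev.psi_le_const_mul_self (x := (N : ℝ)) hN0.le
        unfold Chebyshev.psi at this
        rw [Nat.floor_natCast] at this
        exact this
      calc (∑ k ∈ Finset.Icc 1 N, vonMangoldt k) * (2 * q / N)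
          ≤ ((Real.log 4 + 4) * N) * (2 * q / N) :=
            mul_le_mul_of_nonneg_right h5 (by positivity)
        _ = 2 * q * (Real.log 4 + 4) := by field_simp
    have e1 : L * ∑ k ∈ Finset.Icc 1 N, (vonMangoldt k * ((chi k : ℝ) / k)) =
        ∑ k ∈ Finset.Icc 1 N, (vonMangoldt k * ((chi k : ℝ) / k)) *
          (∑ m ∈ Finset.Icc 1 (N / k), (chi m : ℝ) / m) -
        ∑ k ∈ Finset.Icc 1 N, (vonMangoldt k * ((chi k : ℝ) / k)) *
          ((∑ m ∈ Finset.Icc 1 (N / k), (chi m : ℝ) / m) - L) := by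
      rw [← Finset.sum_sub_distrib, Finset.mul_sum]
      refine Finset.sum_congr rfl fun k _ => ?_
      ring
    have h4 : |L| * |∑ k ∈ Finset.Icc 1 N, (vonMangoldt k * ((chi k : ℝ) / k))| ≤
        2 * q + 2 * q * (Real.log 4 + 4) := by
      rw [← abs_mul, e1]
      refine (abs_sub _ _).trans ?_
      linarith
    rw [hC1, le_div_iff₀ hLpos]
    linarith
  have h2 : ∑ k ∈ Finset.Icc 1 N, (vonMangoldt k * ((chi k : ℝ) / k)) =
      ∑ k ∈ (Finset.Icc 1 N).filter Nat.Prime, (vonMangoldt k * ((chi k : ℝ) / k)) +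
      ∑ k ∈ (Finset.Icc 1 N).filter (fun k => ¬ k.Prime), (vonMangoldt k * ((chi k : ℝ) / k)) :=
    (Finset.sum_filter_add_sum_filter_not _ _ _).symm
  have h3 : ∑ k ∈ (Finset.Icc 1 N).filter Nat.Prime, (vonMangoldt k * ((chi k : ℝ) / k)) =
      ∑ p ∈ (Finset.Icc 1 N).filter Nat.Prime, (chi p : ℝ) * (Real.log p / p) := by
    refine Finset.sum_congr rfl fun p hp => ?_
    rw [Finset.mem_filter] at hp
    rw [vonMangoldt_apply_prime hp.2]
    ring
  have h4 : |∑ k ∈ (Finset.Icc 1 N).filter (fun k => ¬ k.Prime),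
      (vonMangoldt k * ((chi k : ℝ) / k))| ≤ Real.log 4 + 7 := by
    refine (Finset.abs_sum_le_sum_abs _ _).trans ((Finset.sum_le_sum fun k hk => ?_).trans
      (mer_powers N h0))
    rw [Finset.mem_filter, Finset.mem_Icc] at hk
    have hk0 : (0 : ℝ) < k := by exact_mod_cast hk.1.1
    rw [abs_mul, abs_of_nonneg (vonMangoldt_nonneg (n := k)), abs_div, abs_of_pos hk0]
    calc vonMangoldt k * (|(chi k : ℝ)| / k) ≤ vonMangoldt k * (1 / k) := by
          refine mul_le_mul_of_nonneg_left ?_ vonMangoldt_nonneg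
          exact div_le_div_of_nonneg_right (mer_range h k) hk0.le
      _ = vonMangoldt k / k := by ring
  have h5 : ∑ p ∈ (Finset.Icc 1 N).filter Nat.Prime, (chi p : ℝ) * (Real.log p / p) =
      ∑ k ∈ Finset.Icc 1 N, (vonMangoldt k * ((chi k : ℝ) / k)) -
      ∑ k ∈ (Finset.Icc 1 N).filter (fun k => ¬ k.Prime), (vonMangoldt k * ((chi k : ℝ) / k)) := by
    rw [← h3]
    linarith
  rw [h5]
  refine (abs_sub _ _).trans ?_
  linarith

end Pool.Agent.DL
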