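import Pool.Agent.DL.Char
import Pool.Agent.DL.Mertens

/-!
# DL SPL (the split primes have logarithmic density one half)

For a prime `p` not dividing `2 d`: `1_{Split} = (1 + chi p)/2`; primes dividing `2 d` contribute a
bounded amount; `|Σ_{p ≤ N} log p / p - log N| ≤ 3` (Helper35.mertens_lower, mertens_upper) and
`mertens_char` for `chi (d)` with `q = 4 d` (it is an `IsRealChar (4 d)`).
-/

set_option autoImplicit false

namespace Pool.Agent.DL

theorem isRealChar_chi (d : ℕ) (hd : 1 ≤ d) : IsRealChar (4 * d) (chi d) where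
  pos := by omega
  one := chi_one d
  mul := chi_mul d hd
  per := chi_periodic d hd
  rng := chi_range d
  van := by
    intro m hm
    obtain ⟨p, hp, hpm, hpd⟩ := Nat.Prime.not_coprime_iff_dvd.1 hm
    have h2 : p ∣ 2 * d := by
      have h4 : p ∣ 2 * (2 * d) := by
        have : 2 * (2 * d) = 4 * d := by ring
        rw [this]
        exact hpd
      rcases (Nat.Prime.dvd_mul hp).1 h4 with h | h
      · exact h.mul_right d
      · exact h
    have h3 : chi d p = 0 := (chi_zero_iff d hd p hp).2 h2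
    obtain ⟨k, rfl⟩ := hpm
    rw [chi_mul d hd, h3, zero_mul]
  neg := ⟨4 * d - 1, chi_neg d hd⟩

theorem split_density (d : ℕ) (hd : 1 ≤ d) :
    ∃ C : ℝ, 0 ≤ C ∧ ∀ N : ℕ, 1 ≤ N → |SS d N - Real.log N / 2| ≤ C := by
  classical
  obtain ⟨C, hC, hCN⟩ := mertens_char (isRealChar_chi d hd)
  set K : ℝ := ∑ p ∈ (2 * d).divisors, Real.log p / p with hK
  have hnn : ∀ p : ℕ, 0 ≤ Real.log p / (p : ℝ) := fun p =>
    div_nonneg (Real.log_natCast_nonneg p) (Nat.cast_nonneg p)
  have hK0 : 0 ≤ K := Finset.sum_nonneg (fun p _ => hnn p)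
  refine ⟨(3 + C + K) / 2, by positivity, ?_⟩
  intro N hN
  set Q : Finset ℕ := (Finset.Icc 1 N).filter Nat.Prime with hQ
  have hQprm : Q = Helper35.prm 0 N := by
    ext p
    rw [hQ, Helper35.mem_prm, Finset.mem_filter, Finset.mem_Icc]
    constructor
    · rintro ⟨⟨h1, h2⟩, h3⟩
      exact ⟨⟨by omega, h2⟩, h3⟩
    · rintro ⟨⟨h1, h2⟩, h3⟩
      exact ⟨⟨by omega, h2⟩, h3⟩
  have h1 : SS (d : ℤ) N = ∑ p ∈ Q, wt d p := by
    rw [SS, hQ, Finset.sum_filter]
    apply Finset.sum_congr rfl
    intro p _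
    split_ifs with h
    · rfl
    · rw [wt, if_neg]
      rintro ⟨h', _⟩
      exact h h'
  have h2 : ∀ p ∈ Q, wt (d : ℤ) p = (Real.log p / p) / 2 + ((chi d p : ℝ) * (Real.log p / p)) / 2 -
      (if p ∣ 2 * d then Real.log p / p else 0) / 2 := by
    intro p hp
    have hpp : p.Prime := (Finset.mem_filter.1 hp).2
    rcases chi_range d p with h | h | h
    · have h3 : p ∣ 2 * d := (chi_zero_iff d hd p hpp).1 h
      have h4 : ¬ Split (d : ℤ) p := by
        rw [split_iff d hd p hpp, h]
        norm_num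
      rw [wt, if_neg h4, if_pos h3, h]
      push_cast
      ring
    · have h3 : ¬ p ∣ 2 * d := by
        rw [← chi_zero_iff d hd p hpp, h]
        norm_num
      have h4 : Split (d : ℤ) p := by
        rw [split_iff d hd p hpp, h]
      rw [wt, if_pos h4, if_neg h3, h]
      push_cast
      ring
    · have h3 : ¬ p ∣ 2 * d := by
        rw [← chi_zero_iff d hd p hpp, h]
        norm_num
      have h4 : ¬ Split (d : ℤ) p := by
        rw [split_iff d hd p hpp, h]
        norm_num
      rw [wt, if_neg h4, if_neg h3, h]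
      push_cast
      ring
  have h3 : SS (d : ℤ) N = (∑ p ∈ Q, Real.log p / p) / 2 +
      (∑ p ∈ Q, (chi d p : ℝ) * (Real.log p / p)) / 2 -
      (∑ p ∈ Q, if p ∣ 2 * d then Real.log p / p else 0) / 2 := by
    rw [h1, Finset.sum_congr rfl h2, Finset.sum_sub_distrib, Finset.sum_add_distrib,
      Finset.sum_div, Finset.sum_div, Finset.sum_div]
  have h4 : ∑ p ∈ Q, (if p ∣ 2 * d then Real.log p / (p : ℝ) else 0) ≤ K := by
    rw [← Finset.sum_filter, hK]
    apply Finset.sum_le_sum_of_subset_of_nonneg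
    · intro p hp
      rw [Finset.mem_filter] at hp
      rw [Nat.mem_divisors]
      exact ⟨hp.2, by omega⟩
    · intro p _ _
      exact hnn p
  have h5 : 0 ≤ ∑ p ∈ Q, (if p ∣ 2 * d then Real.log p / (p : ℝ) else 0) := by
    apply Finset.sum_nonneg
    intro p _
    split_ifs
    · exact hnn p
    · exact le_refl _
  have h6 := Helper35.mertens_lower N hN
  have h7 := Helper35.mertens_upper N hN
  rw [← hQprm] at h6 h7
  have h8 := abs_le.1 (hCN N)
  rw [← hQ] at h8
  rw [abs_le]
  constructor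
  · linarith [h8.1]
  · linarith [h8.2]

end Pool.Agent.DL
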