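import Pool.Agent.DL.Desc
import Pool.Agent.DL.Count
import Pool.Agent.DL.Gg
import Pool.Agent.DL.Spl

/-!
# DL FRM (the induction)

Let `C` be the constant of `split_density d`, `Z` a natural number with `½ log (Z/2) - 2 C ≥ 1`,
`c > 0` with `c (√(1 + log (2 Z)) + 2 C) ≤ 1/(2 Z)` (so `c Z ≤ 1`), `g n = c n / √(L (log n + L))`.
Strong induction over `n = |P| ≥ 2`, for all forms of determinant `d` and all `P`.
* `n < Z`: `vals` is non-empty, `g n ≤ c n ≤ 1`.
* `n ≥ Z`, `N = n / Z`.  For every split prime `p < n` (descend, `|P'| = ⌈n/p⌉ ≥ 2`, values of the new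
  form times `p` are values of the old one divisible by `p`; `q' = q/p ≤ (n/p) exp L ≤ |P'| exp L`):
  `#{m ∈ vals : p ∣ m} ≥ max (1, g ⌈n/p⌉) ≥ max (1, g(n/p))` (`g` increasing).  By `log_count`
  (`log m ≤ log n + L = A`):
  `A |vals| ≥ Σ_{p ≤ N} log p · g(n/p) + Σ_{N < p ≤ n-1} log p`; the first sum is
  `(c n/√L) Σ wt(p)/√(log(n/p)+L) ≥ (c n/√L)(√A - √(log (2Z) + L) - 2C)` by `abel`, the second is at
  least `N (SS(n-1) - SS(N)) ≥ N (½ log ((n-1)/N) - 2C) ≥ N ≥ n/(2Z)`.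
  Since `L ≥ 1`: `(c n/√L)(√(log (2Z)+L) + 2C) ≤ c n (√(1 + log (2Z)) + 2C) ≤ n/(2Z)`, so
  `A |vals| ≥ (c n/√L) √A`.
-/

set_option autoImplicit false

namespace Pool.Agent.DL

/-- choice of the constants -/
theorem exists_consts (C : ℝ) (hC : 0 ≤ C) :
    ∃ (Z : ℕ) (c : ℝ), 2 ≤ Z ∧ 1 ≤ Real.log (Z / 2) / 2 - 2 * C ∧ 0 < c ∧
      c * (√(1 + Real.log (2 * Z)) + 2 * C) ≤ 1 / (2 * Z) := by
  obtain ⟨Z, hZ⟩ := exists_nat_ge (2 * Real.exp (2 * (1 + 2 * C)) + 2)
  have hpos : 0 < Real.exp (2 * (1 + 2 * C)) := Real.exp_pos _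
  have hZr : (2 : ℝ) ≤ Z := by linarith
  have hZ2 : 2 ≤ Z := by exact_mod_cast hZr
  have hlog : 2 * (1 + 2 * C) ≤ Real.log (Z / 2) := by
    rw [Real.le_log_iff_exp_le (by positivity)]
    linarith
  have hs : 0 ≤ √(1 + Real.log (2 * Z)) := Real.sqrt_nonneg _
  refine ⟨Z, 1 / (2 * Z) / (√(1 + Real.log (2 * Z)) + 2 * C + 1), hZ2, by linarith, by positivity, ?_⟩
  rw [div_mul_eq_mul_div, div_le_iff₀ (by positivity)]
  have : 0 ≤ 1 / (2 * (Z : ℝ)) := by positivity
  nlinarith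

/-- the step for one prime -/
theorem one_prime (a b c' d : ℤ) (ha : 0 < a) (hd : a * c' - b ^ 2 = d) (p : ℕ) (hp : Split d p)
    (P : Finset (ℤ × ℤ)) (L : ℝ)
    (hP : ∀ u ∈ P, ∀ v ∈ P, (qf a b c' (u - v) : ℝ) ≤ P.card * Real.exp L) :
    ∃ (a₁ b₁ c₁ : ℤ) (P' : Finset (ℤ × ℤ)), 0 < a₁ ∧ a₁ * c₁ - b₁ ^ 2 = d ∧
      P'.card = (P.card + p - 1) / p ∧
      (∀ u ∈ P', ∀ v ∈ P', (qf a₁ b₁ c₁ (u - v) : ℝ) ≤ P'.card * Real.exp L) ∧
      (vals a₁ b₁ c₁ P').card ≤ ((vals a b c' P).filter (fun m => (p : ℤ) ∣ m)).card := by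
  obtain ⟨a₁, b₁, c₁, P', φ, h1, h2, h3, h4, h5, h6⟩ := descend a b c' d ha hd p hp P
  have hp0 : 0 < p := hp.1.pos
  have hpr : (0 : ℝ) < p := by exact_mod_cast hp0
  refine ⟨a₁, b₁, c₁, P', h1, h2, h3, ?_, ?_⟩
  · intro u hu v hv
    have h := hP (φ u) (h4 u hu) (φ v) (h4 v hv)
    rw [h6] at h
    push_cast at h
    have hc : (P.card : ℝ) ≤ p * P'.card := by
      have : P.card ≤ p * P'.card := by
        rw [h3]
        have := Nat.div_add_mod (P.card + p - 1) p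
        have h7 := Nat.mod_lt (P.card + p - 1) hp0
        omega
      exact_mod_cast this
    have he : 0 < Real.exp L := Real.exp_pos L
    have : (p : ℝ) * (qf a₁ b₁ c₁ (u - v) : ℝ) ≤ p * (P'.card * Real.exp L) := by
      calc (p : ℝ) * (qf a₁ b₁ c₁ (u - v) : ℝ) ≤ P.card * Real.exp L := h
        _ ≤ p * P'.card * Real.exp L := by nlinarith
        _ = p * (P'.card * Real.exp L) := by ring
    exact le_of_mul_le_mul_left this hpr
  · apply Finset.card_le_card_of_injOn (fun m => (p : ℤ) * m)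
    · intro m hm
      simp only [vals, Finset.coe_image, Set.mem_image, Finset.mem_coe, Finset.mem_offDiag] at hm
      obtain ⟨w, ⟨hw1, hw2, hw3⟩, rfl⟩ := hm
      simp only [Finset.coe_filter, Set.mem_ofPred_eq, vals, Finset.mem_image, Finset.mem_offDiag]
      refine ⟨⟨(φ w.1, φ w.2), ⟨h4 _ hw1, h4 _ hw2, h5 _ hw1 _ hw2 hw3⟩, ?_⟩, dvd_mul_right _ _⟩
      simpa using h6 w.1 w.2
    · intro m _ m' _ h
      have hpz : (p : ℤ) ≠ 0 := by exact_mod_cast hp0.ne'
      exact mul_left_cancel₀ hpz h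

/-- the theorem for integral forms -/
theorem form_bound (d : ℕ) (hd : 1 ≤ d) :
    ∃ c : ℝ, 0 < c ∧ ∀ (a b c' : ℤ), 0 < a → a * c' - b ^ 2 = d →
      ∀ (P : Finset (ℤ × ℤ)), 2 ≤ P.card → ∀ L : ℝ, 1 ≤ L →
        (∀ u ∈ P, ∀ v ∈ P, (qf a b c' (u - v) : ℝ) ≤ P.card * Real.exp L) →
        gg c L P.card ≤ ((vals a b c' P).card : ℝ) := by
  obtain ⟨C, hC, hS⟩ := split_density d hd
  obtain ⟨Z, c, hZ, hZ2, hc, hc2⟩ := exists_consts C hC
  refine ⟨c, hc, ?_⟩
  have hZr : (2 : ℝ) ≤ Z := by exact_mod_cast hZ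
  -- c Z ≤ 1
  have hcZ : c * Z ≤ 1 := by
    have hl : 0 ≤ Real.log (2 * Z) := Real.log_nonneg (by linarith)
    have h1 : 1 ≤ √(1 + Real.log (2 * Z)) := by
      rw [Real.one_le_sqrt]; linarith
    have h2 : c ≤ 1 / (2 * Z) := by
      calc c = c * 1 := by ring
        _ ≤ c * (√(1 + Real.log (2 * Z)) + 2 * C) := by gcongr; linarith
        _ ≤ _ := hc2
    rw [le_div_iff₀ (by positivity)] at h2
    nlinarith
  suffices H : ∀ n : ℕ, ∀ (a b c' : ℤ), 0 < a → a * c' - b ^ 2 = d →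
      ∀ (P : Finset (ℤ × ℤ)), P.card = n → 2 ≤ P.card → ∀ L : ℝ, 1 ≤ L →
        (∀ u ∈ P, ∀ v ∈ P, (qf a b c' (u - v) : ℝ) ≤ P.card * Real.exp L) →
        gg c L P.card ≤ ((vals a b c' P).card : ℝ) by
    intro a b c' ha hdet P hP L hL hq
    exact H P.card a b c' ha hdet P rfl hP L hL hq
  intro n
  induction n using Nat.strong_induction_on with
  | _ n ih =>
  intro a b c' ha hdet P hPn hP L hL hq
  have hnr : (2 : ℝ) ≤ P.card := by exact_mod_cast hP
  have hlogn : 0 ≤ Real.log P.card := Real.log_nonneg (by linarith)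
  by_cases hnZ : n < Z
  · have hne : (vals a b c' P).Nonempty := by
      obtain ⟨u, hu, v, hv, huv⟩ := Finset.one_lt_card.1 (by omega : 1 < P.card)
      exact ⟨_, Finset.mem_image_of_mem _ (Finset.mem_offDiag.2 ⟨hu, hv, huv⟩ : (u, v) ∈ P.offDiag)⟩
    have h1 : (1 : ℝ) ≤ ((vals a b c' P).card : ℝ) := by exact_mod_cast hne.card_pos
    refine le_trans ?_ h1
    unfold gg
    have hs : 1 ≤ √(L * (Real.log P.card + L)) := by
      rw [Real.one_le_sqrt]; nlinarith
    rw [div_le_one (by linarith)]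
    have h2 : c * P.card ≤ c * Z := by
      gcongr
      exact_mod_cast (by omega : P.card ≤ Z)
    linarith
  · rw [not_lt] at hnZ
    subst hPn
    have hdz : (0 : ℤ) < (d : ℤ) := by exact_mod_cast hd
    apply step_ineq d C hC hS Z hZ hZ2 c hc hc2 P.card hnZ L hL _
      (fun p => (((vals a b c' P).filter (fun m => (p : ℤ) ∣ m)).card : ℝ))
    · intro p hp hpn
      obtain ⟨a₁, b₁, c₁, P', h1, h2, h3, h4, h5⟩ := one_prime a b c' d ha hdet p hp P L hq
      have hp0 := hp.1.pos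
      have hcard : 2 ≤ P'.card := by
        rw [h3, Nat.le_div_iff_mul_le hp0]; omega
      have hne : (vals a₁ b₁ c₁ P').Nonempty := by
        obtain ⟨u, hu, v, hv, huv⟩ := Finset.one_lt_card.1 (by omega : 1 < P'.card)
        exact ⟨_, Finset.mem_image_of_mem _ (Finset.mem_offDiag.2 ⟨hu, hv, huv⟩ : (u, v) ∈ P'.offDiag)⟩
      have := hne.card_pos
      exact_mod_cast (by omega : 1 ≤ ((vals a b c' P).filter (fun m => (p : ℤ) ∣ m)).card)
    · intro p hp hpn
      obtain ⟨a₁, b₁, c₁, P', h1, h2, h3, h4, h5⟩ := one_prime a b c' d ha hdet p hp P L hq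
      have hp0 := hp.1.pos
      have hp2 := hp.1.two_le
      have hcard : 2 ≤ P'.card := by
        rw [h3, Nat.le_div_iff_mul_le hp0]; omega
      have hlt : P'.card < P.card := by
        rw [h3, Nat.div_lt_iff_lt_mul hp0]
        have h9 : P.card + p ≤ P.card * p := by nlinarith
        omega
      have hge : (P.card : ℝ) / p ≤ P'.card := by
        rw [div_le_iff₀ (by exact_mod_cast hp0)]
        have : P.card ≤ P'.card * p := by
          rw [h3]
          have := Nat.div_add_mod (P.card + p - 1) p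
          have h7 := Nat.mod_lt (P.card + p - 1) hp0
          have h8 : p * ((P.card + p - 1) / p) = ((P.card + p - 1) / p) * p := mul_comm _ _
          omega
        exact_mod_cast this
      have hih := ih P'.card hlt a₁ b₁ c₁ h1 h2 P' rfl hcard L hL h4
      have hx1 : (1 : ℝ) ≤ (P.card : ℝ) / p := by
        rw [le_div_iff₀ (by exact_mod_cast hp0), one_mul]
        exact_mod_cast hpn.le
      calc gg c L (P.card / p) ≤ gg c L P'.card := gg_mono c L _ _ hc.le hL hx1 hge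
        _ ≤ ((vals a₁ b₁ c₁ P').card : ℝ) := hih
        _ ≤ _ := by exact_mod_cast h5
    · apply log_count (vals a b c' P) (Real.log P.card + L)
      · intro m hm
        simp only [vals, Finset.mem_image, Finset.mem_offDiag] at hm
        obtain ⟨w, ⟨hw1, hw2, hw3⟩, rfl⟩ := hm
        have hpos : 0 < qf a b c' (w.1 - w.2) :=
          qf_pos a b c' d ha hdet hdz _ (sub_ne_zero.2 hw3)
        refine ⟨hpos, ?_⟩
        have hposr : (0 : ℝ) < (qf a b c' (w.1 - w.2) : ℝ) := by exact_mod_cast hpos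
        have h := Real.log_le_log hposr (hq w.1 hw1 w.2 hw2)
        rw [Real.log_mul (by linarith) (Real.exp_pos L).ne', Real.log_exp] at h
        exact h
      · intro p hp
        simp only [sp, Finset.mem_filter] at hp
        exact hp.2.1

end Pool.Agent.DL
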