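import Pool.Agent.DL.CharSum

/-!
# DL LNZ (`L(1,χ) ≠ 0`)

We build the `DirichletCharacter ℂ q` attached to `chi`, use Mathlib's
`DirichletCharacter.LFunction_apply_one_ne_zero`, and partial summation:
`|Σ_{n ≤ N} chi n n^{-1-ε} - L| ≤ 2 q ε + 2 q / (N + 1)`, so `|L(1 + ε, χ) - L| ≤ 2 q ε`.
-/

set_option autoImplicit false

namespace Pool.Agent.DL

theorem lnz_mod {q : ℕ} {chi : ℕ → ℤ} (h : IsRealChar q chi) (n : ℕ) : chi (n % q) = chi n :=
  Function.Periodic.map_mod_nat h.per n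

/-- The Dirichlet character attached to `chi`. -/
noncomputable def lnzChar {q : ℕ} [NeZero q] {chi : ℕ → ℤ} (h : IsRealChar q chi) :
    DirichletCharacter ℂ q where
  toFun x := ((chi x.val : ℤ) : ℂ)
  map_one' := by
    rw [ZMod.val_one_eq_one_mod, lnz_mod h, h.one]
    simp
  map_mul' x y := by
    rw [ZMod.val_mul, lnz_mod h, h.mul]
    push_cast
    rfl
  map_nonunit' x hx := by
    have h1 : ¬ Nat.Coprime x.val q := by
      intro h2
      apply hx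
      rw [← ZMod.natCast_zmod_val x]
      exact (ZMod.isUnit_iff_coprime _ _).2 h2
    show ((chi x.val : ℤ) : ℂ) = 0
    rw [h.van _ h1]
    simp

theorem lnzChar_apply {q : ℕ} [NeZero q] {chi : ℕ → ℤ} (h : IsRealChar q chi) (n : ℕ) :
    lnzChar h (n : ZMod q) = ((chi n : ℤ) : ℂ) := by
  show ((chi ((n : ZMod q).val) : ℤ) : ℂ) = _
  rw [ZMod.val_natCast, lnz_mod h]

theorem lnzChar_ne_one {q : ℕ} [NeZero q] {chi : ℕ → ℤ} (h : IsRealChar q chi) :
    lnzChar h ≠ 1 := by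
  intro h1
  obtain ⟨u, hu⟩ := h.neg
  have hc : Nat.Coprime u q := by
    by_contra h2
    rw [h.van u h2] at hu
    norm_num at hu
  have h2 := lnzChar_apply h u
  rw [h1, MulChar.one_apply ((ZMod.isUnit_iff_coprime _ _).2 hc), hu] at h2
  norm_num at h2

theorem lnz_weight (ε : ℝ) (hε : 0 < ε) (n : ℕ) (hn : 1 ≤ n) :
    |((n + 1 : ℕ) : ℝ) ^ (-ε) - (n : ℝ) ^ (-ε)| ≤ ε / n := by
  have hn0 : (0 : ℝ) < n := by exact_mod_cast hn
  have hn1 : (1 : ℝ) ≤ n := by exact_mod_cast hn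
  have hn2 : (0 : ℝ) < ((n + 1 : ℕ) : ℝ) := by positivity
  have e1 : ((n + 1 : ℕ) : ℝ) ^ (-ε) = (n : ℝ) ^ (-ε) *
      Real.exp (-(ε * Real.log (1 + 1 / (n : ℝ)))) := by
    rw [Real.rpow_def_of_pos hn2, Real.rpow_def_of_pos hn0, ← Real.exp_add]
    congr 1
    have : Real.log ((n + 1 : ℕ) : ℝ) = Real.log n + Real.log (1 + 1 / (n : ℝ)) := by
      rw [← Real.log_mul hn0.ne' (by positivity)]
      congr 1
      push_cast
      field_simp
    rw [this]
    ring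
  have hw : (n : ℝ) ^ (-ε) ≤ 1 := Real.rpow_le_one_of_one_le_of_nonpos hn1 (by linarith)
  have hw0 : 0 ≤ (n : ℝ) ^ (-ε) := Real.rpow_nonneg hn0.le _
  have hlog : Real.log (1 + 1 / (n : ℝ)) ≤ 1 / n := by
    have := Real.log_le_sub_one_of_pos (x := 1 + 1 / (n : ℝ)) (by positivity)
    linarith
  have hlog0 : 0 ≤ Real.log (1 + 1 / (n : ℝ)) := Real.log_nonneg (by
    have : 0 ≤ 1 / (n : ℝ) := by positivity
    linarith)
  have hexp : 1 - ε / n ≤ Real.exp (-(ε * Real.log (1 + 1 / (n : ℝ)))) := by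
    have h1 := Real.add_one_le_exp (-(ε * Real.log (1 + 1 / (n : ℝ))))
    have h2 : ε * Real.log (1 + 1 / (n : ℝ)) ≤ ε * (1 / n) := mul_le_mul_of_nonneg_left hlog hε.le
    have h3 : ε * (1 / (n : ℝ)) = ε / n := by ring
    linarith
  have hexp1 : Real.exp (-(ε * Real.log (1 + 1 / (n : ℝ)))) ≤ 1 := by
    rw [Real.exp_le_one_iff]
    have := mul_nonneg hε.le hlog0
    linarith
  rw [e1, abs_sub_comm, abs_of_nonneg]
  · have h1 : (n : ℝ) ^ (-ε) - (n : ℝ) ^ (-ε) * Real.exp (-(ε * Real.log (1 + 1 / (n : ℝ)))) =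
        (n : ℝ) ^ (-ε) * (1 - Real.exp (-(ε * Real.log (1 + 1 / (n : ℝ))))) := by ring
    rw [h1]
    calc (n : ℝ) ^ (-ε) * (1 - Real.exp (-(ε * Real.log (1 + 1 / (n : ℝ)))))
        ≤ 1 * (1 - Real.exp (-(ε * Real.log (1 + 1 / (n : ℝ))))) :=
          mul_le_mul_of_nonneg_right hw (by linarith)
      _ ≤ ε / n := by linarith
  · have := mul_le_mul_of_nonneg_left hexp1 hw0
    linarith

theorem lnz_partial {q : ℕ} {chi : ℕ → ℤ} (L : ℝ)
    (hL : ∀ N : ℕ, |(∑ m ∈ Finset.Icc 1 N, (chi m : ℝ) / m) - L| ≤ 2 * q / (N + 1))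
    (ε : ℝ) (hε : 0 < ε) (N : ℕ) (hN : 1 ≤ N) :
    |∑ m ∈ Finset.Icc 1 N, (chi m : ℝ) / m * (m : ℝ) ^ (-ε) - L| ≤ 2 * q * ε + 2 * q / (N + 1) := by
  have key : ∀ N : ℕ, 1 ≤ N →
      |∑ m ∈ Finset.Icc 1 N, (chi m : ℝ) / m * (m : ℝ) ^ (-ε) - L +
        (L - ∑ m ∈ Finset.Icc 1 N, (chi m : ℝ) / m) * (N : ℝ) ^ (-ε)| ≤
        2 * q * ε * (1 - 1 / N) := by
    intro N hN
    induction N, hN using Nat.le_induction with
    | base => simp
    | succ N hN ih =>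
      have hN0 : (0 : ℝ) < N := by exact_mod_cast hN
      rw [Finset.sum_Icc_succ_top (by omega), Finset.sum_Icc_succ_top (by omega)]
      have e1 : ∑ m ∈ Finset.Icc 1 N, (chi m : ℝ) / m * (m : ℝ) ^ (-ε) +
          (chi (N + 1) : ℝ) / ((N + 1 : ℕ) : ℝ) * ((N + 1 : ℕ) : ℝ) ^ (-ε) - L +
          (L - (∑ m ∈ Finset.Icc 1 N, (chi m : ℝ) / m + (chi (N + 1) : ℝ) / ((N + 1 : ℕ) : ℝ))) *
            ((N + 1 : ℕ) : ℝ) ^ (-ε) =
          (∑ m ∈ Finset.Icc 1 N, (chi m : ℝ) / m * (m : ℝ) ^ (-ε) - L +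
            (L - ∑ m ∈ Finset.Icc 1 N, (chi m : ℝ) / m) * (N : ℝ) ^ (-ε)) -
          ((∑ m ∈ Finset.Icc 1 N, (chi m : ℝ) / m) - L) *
            (((N + 1 : ℕ) : ℝ) ^ (-ε) - (N : ℝ) ^ (-ε)) := by ring
      rw [e1]
      refine (abs_sub _ _).trans ?_
      rw [abs_mul]
      have h1 : |(∑ m ∈ Finset.Icc 1 N, (chi m : ℝ) / m) - L| *
          |((N + 1 : ℕ) : ℝ) ^ (-ε) - (N : ℝ) ^ (-ε)| ≤ 2 * q / (N + 1) * (ε / N) :=
        mul_le_mul (hL N) (lnz_weight ε hε N hN) (abs_nonneg _) (by positivity)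
      have h2 : 2 * q * ε * (1 - 1 / N) + 2 * q / (N + 1) * (ε / N) =
          2 * q * ε * (1 - 1 / ((N + 1 : ℕ) : ℝ)) := by
        push_cast
        field_simp
        ring
      linarith
  have h1 := key N hN
  have hN0 : (0 : ℝ) < N := by exact_mod_cast hN
  have hN1 : (1 : ℝ) ≤ N := by exact_mod_cast hN
  have hw : (N : ℝ) ^ (-ε) ≤ 1 := Real.rpow_le_one_of_one_le_of_nonpos hN1 (by linarith)
  have hw0 : 0 ≤ (N : ℝ) ^ (-ε) := Real.rpow_nonneg hN0.le _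
  have e1 : ∑ m ∈ Finset.Icc 1 N, (chi m : ℝ) / m * (m : ℝ) ^ (-ε) - L =
      (∑ m ∈ Finset.Icc 1 N, (chi m : ℝ) / m * (m : ℝ) ^ (-ε) - L +
        (L - ∑ m ∈ Finset.Icc 1 N, (chi m : ℝ) / m) * (N : ℝ) ^ (-ε)) +
      ((∑ m ∈ Finset.Icc 1 N, (chi m : ℝ) / m) - L) * (N : ℝ) ^ (-ε) := by ring
  rw [e1]
  refine (abs_add_le _ _).trans ?_
  rw [abs_mul, abs_of_nonneg hw0]
  have h2 : |(∑ m ∈ Finset.Icc 1 N, (chi m : ℝ) / m) - L| * (N : ℝ) ^ (-ε) ≤
      2 * q / (N + 1) * 1 := mul_le_mul (hL N) hw hw0 (by positivity)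
  have h3 : 2 * q * ε * (1 - 1 / (N : ℝ)) ≤ 2 * q * ε := by
    have : 0 ≤ 2 * q * ε * (1 / (N : ℝ)) := by positivity
    have e2 : 2 * q * ε * (1 - 1 / (N : ℝ)) = 2 * q * ε - 2 * q * ε * (1 / (N : ℝ)) := by ring
    linarith
  linarith

theorem L_ne_zero {q : ℕ} {chi : ℕ → ℤ} (h : IsRealChar q chi) (L : ℝ)
    (hL : ∀ N : ℕ, |(∑ m ∈ Finset.Icc 1 N, (chi m : ℝ) / m) - L| ≤ 2 * q / (N + 1)) : L ≠ 0 := by
  have hq := h.pos
  have : NeZero q := ⟨by omega⟩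
  set χ := lnzChar h with hχ
  have hχ1 : χ ≠ 1 := lnzChar_ne_one h
  have hne := DirichletCharacter.LFunction_apply_one_ne_zero hχ1
  -- the bound for `s = 1 + ε`
  have hbound : ∀ ε : ℝ, 0 < ε →
      ‖DirichletCharacter.LFunction χ ((1 + ε : ℝ) : ℂ) - (L : ℂ)‖ ≤ 2 * q * ε := by
    intro ε hε
    have hs : 1 < (((1 + ε : ℝ) : ℂ)).re := by
      rw [Complex.ofReal_re]; linarith
    rw [DirichletCharacter.LFunction_eq_LSeries χ hs]
    have hsum := (DirichletCharacter.LSeriesSummable_of_one_lt_re χ hs)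
    have hts := hsum.hasSum.tendsto_sum_nat
    have hterm : ∀ n : ℕ, LSeries.term (fun n => χ (n : ZMod q)) ((1 + ε : ℝ) : ℂ) n =
        (((chi n : ℝ) / n * (n : ℝ) ^ (-ε) : ℝ) : ℂ) := by
      intro n
      rcases Nat.eq_zero_or_pos n with h0 | h0
      · subst h0
        simp
      · have hn0 : (0 : ℝ) < n := by exact_mod_cast h0
        rw [LSeries.term_of_ne_zero (by omega)]
        rw [hχ, lnzChar_apply h n]
        have e1 : (n : ℂ) ^ ((1 + ε : ℝ) : ℂ) = (((n : ℝ) ^ (1 + ε) : ℝ) : ℂ) := by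
          rw [Complex.ofReal_cpow hn0.le]
          simp
        rw [e1]
        have e2 : (n : ℝ) ^ (1 + ε) = n * (n : ℝ) ^ ε := by
          rw [Real.rpow_add hn0, Real.rpow_one]
        have e3 : (n : ℝ) ^ (-ε) = ((n : ℝ) ^ ε)⁻¹ := Real.rpow_neg hn0.le ε
        rw [e2, e3]
        push_cast
        field_simp
    have hS : ∀ N : ℕ, ∑ n ∈ Finset.range (N + 1),
        LSeries.term (fun n => χ (n : ZMod q)) ((1 + ε : ℝ) : ℂ) n =
        ((∑ m ∈ Finset.Icc 1 N, (chi m : ℝ) / m * (m : ℝ) ^ (-ε) : ℝ) : ℂ) := by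
      intro N
      simp_rw [hterm]
      rw [Complex.ofReal_sum, Finset.range_eq_Ico, Finset.sum_eq_sum_Ico_succ_bot (by omega)]
      have : Finset.Ico (0 + 1) (N + 1) = Finset.Icc 1 N := by
        ext x
        simp only [Finset.mem_Ico, Finset.mem_Icc]
        omega
      rw [this]
      simp
    have hts' := (Filter.tendsto_add_atTop_iff_nat 1).2 hts
    have h3 : Filter.Tendsto (fun N : ℕ =>
        ‖((∑ m ∈ Finset.Icc 1 N, (chi m : ℝ) / m * (m : ℝ) ^ (-ε) : ℝ) : ℂ) - (L : ℂ)‖)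
        Filter.atTop (nhds ‖LSeries (fun n => χ (n : ZMod q)) ((1 + ε : ℝ) : ℂ) - (L : ℂ)‖) := by
      refine (Filter.Tendsto.sub_const ?_ _).norm
      have : (fun N : ℕ => ((∑ m ∈ Finset.Icc 1 N, (chi m : ℝ) / m * (m : ℝ) ^ (-ε) : ℝ) : ℂ)) =
          fun N : ℕ => ∑ n ∈ Finset.range (N + 1),
            LSeries.term (fun n => χ (n : ZMod q)) ((1 + ε : ℝ) : ℂ) n := by
        funext N
        exact (hS N).symm
      rw [this]
      exact hts'
    have h4 : Filter.Tendsto (fun N : ℕ => 2 * (q : ℝ) * ε + 2 * q / ((N : ℝ) + 1))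
        Filter.atTop (nhds (2 * q * ε + 0)) := by
      refine Filter.Tendsto.add tendsto_const_nhds ?_
      have := (tendsto_one_div_add_atTop_nhds_zero_nat (𝕜 := ℝ)).const_mul (2 * (q : ℝ))
      rw [mul_zero] at this
      refine this.congr fun N => ?_
      ring
    have h5 := le_of_tendsto_of_tendsto h3 h4 (by
      filter_upwards [Filter.eventually_ge_atTop 1] with N hN
      rw [← Complex.ofReal_sub, Complex.norm_real, Real.norm_eq_abs]
      exact lnz_partial L hL ε hε N hN)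
    rw [add_zero] at h5
    exact h5
  -- continuity at `1`
  have hcont : Filter.Tendsto (fun k : ℕ =>
      ‖DirichletCharacter.LFunction χ ((1 + 1 / ((k : ℝ) + 1) : ℝ) : ℂ) - (L : ℂ)‖) Filter.atTop
      (nhds ‖DirichletCharacter.LFunction χ 1 - (L : ℂ)‖) := by
    refine (Filter.Tendsto.sub_const ?_ _).norm
    have hc : ContinuousAt (DirichletCharacter.LFunction χ) 1 :=
      (DirichletCharacter.differentiable_LFunction hχ1 1).continuousAt
    refine hc.tendsto.comp ?_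
    have h1 : Filter.Tendsto (fun k : ℕ => (1 + 1 / ((k : ℝ) + 1) : ℝ)) Filter.atTop
        (nhds (1 + 0)) := Filter.Tendsto.add tendsto_const_nhds
          (tendsto_one_div_add_atTop_nhds_zero_nat (𝕜 := ℝ))
    rw [add_zero] at h1
    have h2 := (Complex.continuous_ofReal.tendsto 1).comp h1
    rw [Complex.ofReal_one] at h2
    exact h2
  have hzero : Filter.Tendsto (fun k : ℕ => 2 * (q : ℝ) * (1 / ((k : ℝ) + 1))) Filter.atTop
      (nhds 0) := by
    have := (tendsto_one_div_add_atTop_nhds_zero_nat (𝕜 := ℝ)).const_mul (2 * (q : ℝ))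
    rwa [mul_zero] at this
  have hle := le_of_tendsto_of_tendsto' hcont hzero (fun k => hbound _ (by positivity))
  have heq : DirichletCharacter.LFunction χ 1 = (L : ℂ) :=
    sub_eq_zero.1 (norm_le_zero_iff.1 hle)
  intro hL0
  apply hne
  rw [heq, hL0]
  simp

end Pool.Agent.DL
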