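import Pool.Agent.DL.Defs

/-!
# DL LAT (irrational lattices)

`al, be, ga` = Gram matrix entries, `Q v = al x² + 2 be x y + ga y²` positive definite.
If `(al, be, ga)` is not proportional to an integer vector, every value of `Q` on `ℤ²` is attained
at most `4` times: the space `W ⊂ ℚ³` of `(r, s, t)` with `r al + 2 s be + t ga = 0` has dimension
`≤ 1` (two independent rational relations determine `(al : be : ga)` as a rational point).  Let
`Q v = Q v'`: then `(x'² - x², x' y' - x y, y'² - y²) ∈ W`, so it is `0` (then `v' = ± v`) or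
`W = ℚ (r, s, t)` and it is `mu (r, s, t)`; the symmetric matrices `X = v vᵀ`, `X' = v' v'ᵀ`,
`R = [[r, s], [s, t]]` satisfy `X' = X + mu R`, `0 = det X' = mu (r y² - 2 s x y + t x²) + mu² det R`.
`det R ≠ 0`: otherwise `R = rho w wᵀ` and `tr (R G) = rho Q(w) ≠ 0`.  So there are at most two values
of `mu` and at most four vectors `v'`.
(Alternative without linear algebra: fix `v`; if `v₁, v₂` are two solutions with nonzero
non-proportional difference triples, solve for the ratio; all difference triples proportional.)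

-/

set_option autoImplicit false

namespace Pool.Agent.DL

/-- real binary form -/
def QR (al be ga : ℝ) (v : ℤ × ℤ) : ℝ := al * v.1 ^ 2 + 2 * be * v.1 * v.2 + ga * v.2 ^ 2

/-- the Gram matrix is proportional to an integral one -/
def Rat (al be ga : ℝ) : Prop := ∃ (lam : ℝ) (a b c : ℤ), 0 < lam ∧ lam * al = a ∧ lam * be = b ∧ lam * ga = c

private theorem sq_pair {x y x0 y0 : ℤ} (h1 : x ^ 2 = x0 ^ 2) (h2 : x * y = x0 * y0)
    (h3 : y ^ 2 = y0 ^ 2) : (x, y) = (x0, y0) ∨ (x, y) = (-x0, -y0) := by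
  rcases sq_eq_sq_iff_eq_or_eq_neg.1 h1 with hx | hx
  · rcases sq_eq_sq_iff_eq_or_eq_neg.1 h3 with hy | hy
    · exact Or.inl (by rw [hx, hy])
    · subst hx
      have h4 : x * y0 = 0 := by rw [hy] at h2; linarith
      rcases mul_eq_zero.1 h4 with h | h
      · right; rw [h, hy]; simp
      · left; rw [hy, h]; simp
  · rcases sq_eq_sq_iff_eq_or_eq_neg.1 h3 with hy | hy
    · subst hy
      have h4 : x0 * y = 0 := by rw [hx] at h2; linarith
      rcases mul_eq_zero.1 h4 with h | h
      · left; rw [hx, h]; simp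
      · right; rw [hx, h]; simp
    · exact Or.inr (by rw [hx, hy])

/-- two integral relations of an irrational Gram matrix are proportional -/
private theorem cross_zero {al be ga : ℝ} (ha : 0 < al) (hirr : ¬ Rat al be ga)
    {r s t r1 s1 t1 : ℤ} (h : al * r + 2 * be * s + ga * t = 0)
    (h1 : al * r1 + 2 * be * s1 + ga * t1 = 0) :
    s * t1 - t * s1 = 0 ∧ t * r1 - r * t1 = 0 ∧ r * s1 - s * r1 = 0 := by
  have e3 : ga * ((s : ℝ) * t1 - t * s1) = al * ((r : ℝ) * s1 - s * r1) := by
    linear_combination (-(s1 : ℝ)) * h + (s : ℝ) * h1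
  have e2 : al * ((t : ℝ) * r1 - r * t1) = 2 * be * ((s : ℝ) * t1 - t * s1) := by
    linear_combination (-(t1 : ℝ)) * h + (t : ℝ) * h1
  by_cases hc : s * t1 - t * s1 = 0
  · have hcR : (s : ℝ) * t1 - t * s1 = 0 := by exact_mod_cast hc
    refine ⟨hc, ?_, ?_⟩
    · rw [hcR, mul_zero] at e2
      have := (mul_eq_zero.1 e2).resolve_left ha.ne'
      exact_mod_cast this
    · rw [hcR, mul_zero] at e3
      have := (mul_eq_zero.1 e3.symm).resolve_left ha.ne'
      exact_mod_cast this
  · exfalso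
    apply hirr
    have hcR : (s : ℝ) * t1 - t * s1 ≠ 0 := by exact_mod_cast hc
    rcases lt_or_gt_of_ne hcR with hneg | hpos
    · refine ⟨2 * (-((s : ℝ) * t1 - t * s1)) / al, 2 * (-(s * t1 - t * s1)),
        -(t * r1 - r * t1), 2 * (-(r * s1 - s * r1)), ?_, ?_, ?_, ?_⟩
      · apply div_pos _ ha
        linarith
      · push_cast; field_simp
      · push_cast
        rw [div_mul_eq_mul_div, div_eq_iff ha.ne']
        linarith
      · push_cast
        rw [div_mul_eq_mul_div, div_eq_iff ha.ne']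
        linarith
    · refine ⟨2 * ((s : ℝ) * t1 - t * s1) / al, 2 * (s * t1 - t * s1),
        (t * r1 - r * t1), 2 * (r * s1 - s * r1), ?_, ?_, ?_, ?_⟩
      · apply div_pos _ ha
        linarith
      · push_cast; field_simp
      · push_cast
        rw [div_mul_eq_mul_div, div_eq_iff ha.ne']
        linarith
      · push_cast
        rw [div_mul_eq_mul_div, div_eq_iff ha.ne']
        linarith

/-- a nonzero integral relation of a definite Gram matrix is nondegenerate -/
private theorem det_ne {al be ga : ℝ} (ha : 0 < al) (hd : 0 < al * ga - be ^ 2)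
    {r s t : ℤ} (h : al * r + 2 * be * s + ga * t = 0) (hne : ¬ (r = 0 ∧ s = 0 ∧ t = 0)) :
    r * t - s ^ 2 ≠ 0 := by
  intro hdet
  have hdR : (r : ℝ) * t - (s : ℝ) ^ 2 = 0 := by exact_mod_cast hdet
  have hga : 0 < ga := by
    by_contra hga
    push Not at hga
    nlinarith [sq_nonneg be]
  by_cases hr : r = 0
  · subst hr
    have hs : s = 0 := by
      have : s ^ 2 = 0 := by linarith
      exact pow_eq_zero_iff (two_ne_zero) |>.1 this
    subst hs
    have ht : t = 0 := by
      have h2 : ga * (t : ℝ) = 0 := by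
        have := h
        push_cast at this
        linarith
      have := (mul_eq_zero.1 h2).resolve_left hga.ne'
      exact_mod_cast this
    exact hne ⟨rfl, rfl, ht⟩
  · have hrR : (r : ℝ) ≠ 0 := by exact_mod_cast hr
    have h2 : al * (r : ℝ) ^ 2 + 2 * be * s * r + ga * (s : ℝ) ^ 2 = 0 := by
      linear_combination (r : ℝ) * h - ga * hdR
    have h3 : (al * (r : ℝ) + be * s) ^ 2 + (al * ga - be ^ 2) * (s : ℝ) ^ 2 = 0 := by
      linear_combination al * h2
    have h4 : (al * (r : ℝ) + be * s) ^ 2 = 0 := by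
      nlinarith [sq_nonneg (al * (r : ℝ) + be * s), sq_nonneg (s : ℝ),
        mul_nonneg hd.le (sq_nonneg (s : ℝ))]
    have h5 : (al * ga - be ^ 2) * (s : ℝ) ^ 2 = 0 := by linarith
    have h6 : (s : ℝ) = 0 := by
      have := (mul_eq_zero.1 h5).resolve_left hd.ne'
      exact pow_eq_zero_iff (two_ne_zero) |>.1 this
    have h7 : al * (r : ℝ) + be * s = 0 := pow_eq_zero_iff (two_ne_zero) |>.1 h4
    rw [h6, mul_zero, add_zero] at h7
    exact hrR ((mul_eq_zero.1 h7).resolve_left ha.ne')

private theorem two_values {r s t r1 s1 t1 x0 y0 : ℤ}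
    (hE : r * y0 ^ 2 + t * x0 ^ 2 - 2 * s * (x0 * y0) + (r * t - s ^ 2) = 0)
    (hE1 : r1 * y0 ^ 2 + t1 * x0 ^ 2 - 2 * s1 * (x0 * y0) + (r1 * t1 - s1 ^ 2) = 0)
    (hdet : r1 * t1 - s1 ^ 2 ≠ 0)
    (c1 : s * t1 - t * s1 = 0) (c2 : t * r1 - r * t1 = 0) (c3 : r * s1 - s * r1 = 0) :
    (r = 0 ∧ s = 0 ∧ t = 0) ∨ (r = r1 ∧ s = s1 ∧ t = t1) := by
  by_cases hr1 : r1 = 0
  · subst hr1
    have hs1 : s1 ≠ 0 := by
      rintro rfl
      exact hdet (by ring)
    have hr : r = 0 := by
      have : r * s1 = 0 := by linarith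
      exact (mul_eq_zero.1 this).resolve_right hs1
    subst hr
    have h1 : s * (s1 * (s - s1)) = 0 := by
      linear_combination (-s1) * hE + s * hE1 + (-x0 ^ 2) * c1
    rcases mul_eq_zero.1 h1 with h | h
    · left
      refine ⟨rfl, h, ?_⟩
      rw [h, zero_mul, zero_sub, neg_eq_zero] at c1
      exact (mul_eq_zero.1 c1).resolve_right hs1
    · right
      have hs : s = s1 := by
        have := (mul_eq_zero.1 h).resolve_left hs1
        linarith
      refine ⟨rfl, hs, ?_⟩
      rw [hs] at c1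
      have : s1 * (t1 - t) = 0 := by linarith
      have := (mul_eq_zero.1 this).resolve_left hs1
      linarith
  · have h1 : r1 * (r * t - s ^ 2) = r * (r1 * t1 - s1 ^ 2) := by
      linear_combination r1 * hE - r * hE1 - x0 ^ 2 * c2 - 2 * (x0 * y0) * c3
    have h2 : r1 ^ 2 * (r * t - s ^ 2) = r ^ 2 * (r1 * t1 - s1 ^ 2) := by
      linear_combination (r * r1) * c2 + (r * s1 + s * r1) * c3
    have h3 : (r1 * t1 - s1 ^ 2) * (r * (r - r1)) = 0 := by
      linear_combination r1 * h1 - h2
    rcases mul_eq_zero.1 ((mul_eq_zero.1 h3).resolve_left hdet) with h | h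
    · left
      subst h
      refine ⟨rfl, ?_, ?_⟩
      · have : s * r1 = 0 := by linarith
        exact (mul_eq_zero.1 this).resolve_right hr1
      · have : t * r1 = 0 := by linarith
        exact (mul_eq_zero.1 this).resolve_right hr1
    · right
      have hr : r = r1 := by linarith
      subst hr
      refine ⟨rfl, ?_, ?_⟩
      · have : r * (s1 - s) = 0 := by linarith
        have := (mul_eq_zero.1 this).resolve_left hr1
        linarith
      · have : r * (t - t1) = 0 := by linarith
        have := (mul_eq_zero.1 this).resolve_left hr1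
        linarith

private theorem rel_of_eq {al be ga m : ℝ} {v v0 : ℤ × ℤ} (h : QR al be ga v = m)
    (h0 : QR al be ga v0 = m) :
    al * ((v.1 ^ 2 - v0.1 ^ 2 : ℤ) : ℝ) + 2 * be * ((v.1 * v.2 - v0.1 * v0.2 : ℤ) : ℝ) +
      ga * ((v.2 ^ 2 - v0.2 ^ 2 : ℤ) : ℝ) = 0 := by
  unfold QR at h h0
  push_cast
  linear_combination h - h0

private theorem pm_of {v v0 : ℤ × ℤ} (h1 : v.1 ^ 2 - v0.1 ^ 2 = 0)
    (h2 : v.1 * v.2 - v0.1 * v0.2 = 0) (h3 : v.2 ^ 2 - v0.2 ^ 2 = 0) :
    v = v0 ∨ v = (-v0.1, -v0.2) := by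
  have := sq_pair (x := v.1) (y := v.2) (x0 := v0.1) (y0 := v0.2) (by linarith) (by linarith)
    (by linarith)
  simpa using this

theorem four_solutions (al be ga : ℝ) (ha : 0 < al) (hd : 0 < al * ga - be ^ 2)
    (hirr : ¬ Rat al be ga) (T : Finset (ℤ × ℤ)) (m : ℝ) (hT : ∀ v ∈ T, QR al be ga v = m) :
    T.card ≤ 4 := by
  rcases T.eq_empty_or_nonempty with hemp | ⟨v0, hv0⟩
  · rw [hemp]; simp
  -- all of `T` is `± v0`, or there is `v1` with nonzero difference triple
  by_cases hall : ∀ v ∈ T, v = v0 ∨ v = (-v0.1, -v0.2)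
  · have hsub : T ⊆ {v0, (-v0.1, -v0.2)} := by
      intro v hv
      rcases hall v hv with h | h
      · rw [h]; simp
      · rw [h]; simp
    exact (Finset.card_le_card hsub).trans ((Finset.card_le_two).trans (by norm_num))
  · push Not at hall
    obtain ⟨v1, hv1, hne⟩ := hall
    have hrel1 := rel_of_eq (hT v1 hv1) (hT v0 hv0)
    have hnz : ¬ (v1.1 ^ 2 - v0.1 ^ 2 = 0 ∧ v1.1 * v1.2 - v0.1 * v0.2 = 0 ∧
        v1.2 ^ 2 - v0.2 ^ 2 = 0) := by
      rintro ⟨h1, h2, h3⟩
      rcases pm_of h1 h2 h3 with h | h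
      · exact hne.1 h
      · exact hne.2 h
    have hdet := det_ne ha hd hrel1 hnz
    have hsub : T ⊆ {v0, (-v0.1, -v0.2), v1, (-v1.1, -v1.2)} := by
      intro v hv
      have hrel := rel_of_eq (hT v hv) (hT v0 hv0)
      obtain ⟨c1, c2, c3⟩ := cross_zero ha hirr hrel hrel1
      have h2 := two_values (x0 := v0.1) (y0 := v0.2) (by ring) (by ring) hdet c1 c2 c3
      rcases h2 with ⟨a1, a2, a3⟩ | ⟨a1, a2, a3⟩
      · rcases pm_of a1 a2 a3 with h | h
        · rw [h]; simp
        · rw [h]; simp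
      · rcases pm_of (v := v) (v0 := v1) (by linarith) (by linarith) (by linarith) with h | h
        · rw [h]; simp
        · rw [h]; simp
    refine (Finset.card_le_card hsub).trans ?_
    exact Finset.card_le_four

end Pool.Agent.DL
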