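import Pool.Agent.DL.Form
import Pool.Agent.DL.Few

/-!
# DL MAIN

`Q v = ‖v.1 • b₁ + v.2 • b₂‖² = QR (‖b₁‖²) ⟪b₁, b₂⟫ (‖b₂‖²) v`.  Write the points of `S` as
`x = x₀ + t (m b₁ + n b₂)`, `P ⊂ ℤ²` the set of the `(m, n)`; `dist x y = t √(Q (u - v))`, so the number of
distances is the number of values of `Q` on `P - P`.
* Not `Rat`: `few_values`, `(n-1)/4 ≥ n/8 ≥ c n/√(log (2 + Δ²/n) log (2n + Δ²))` for `c = 1/16`, as the
  two logarithms are `≥ log 2` and `≥ log 4`.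
* `Rat` with `lam` and integers `a, b, c'`: `d = a c' - b² = lam² det > 0`, values of `Q` times `lam` =
  values of `qf a b c'`.  `form_bound` with `L = 1 + log (1 + lam) + log (2 + Δ²/n)`:
  `n exp L ≥ lam Δ²`, `L ≤ C₁ log (2 + Δ²/n)`, `log n + L ≤ C₂ log (2 n + Δ²)`.
-/

set_option autoImplicit false

namespace Pool.Agent.DL

open scoped RealInnerProductSpace

/-- the lattice vector with coordinates `v` -/
noncomputable def lv (b₁ b₂ : EuclideanSpace ℝ (Fin 2)) (v : ℤ × ℤ) : EuclideanSpace ℝ (Fin 2) :=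
  (v.1 : ℝ) • b₁ + (v.2 : ℝ) • b₂

theorem norm_lv (b₁ b₂ : EuclideanSpace ℝ (Fin 2)) (v : ℤ × ℤ) :
    ‖lv b₁ b₂ v‖ ^ 2 = QR (‖b₁‖ ^ 2) ⟪b₁, b₂⟫ (‖b₂‖ ^ 2) v := by
  unfold lv QR
  rw [norm_add_sq_real, norm_smul, norm_smul, real_inner_smul_left, real_inner_smul_right,
    mul_pow, mul_pow, Real.norm_eq_abs, Real.norm_eq_abs, sq_abs, sq_abs]
  ring

theorem lv_sub (b₁ b₂ : EuclideanSpace ℝ (Fin 2)) (u v : ℤ × ℤ) :
    lv b₁ b₂ (u - v) = lv b₁ b₂ u - lv b₁ b₂ v := by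
  unfold lv
  simp only [Prod.fst_sub, Prod.snd_sub, Int.cast_sub, sub_smul]
  abel

theorem gram_pos (b₁ b₂ : EuclideanSpace ℝ (Fin 2)) (hb : LinearIndependent ℝ ![b₁, b₂]) :
    0 < ‖b₁‖ ^ 2 ∧ 0 < ‖b₁‖ ^ 2 * ‖b₂‖ ^ 2 - ⟪b₁, b₂⟫ ^ 2 := by
  rw [LinearIndependent.pair_iff] at hb
  have hb1 : b₁ ≠ 0 := by
    rintro rfl
    have := hb 1 0 (by simp)
    exact one_ne_zero this.1
  have h1 : 0 < ‖b₁‖ ^ 2 := by positivity
  refine ⟨h1, ?_⟩
  -- the vector w = ‖b₁‖² b₂ - ⟪b₁,b₂⟫ b₁ is nonzero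
  have hw : (‖b₁‖ ^ 2) • b₂ - ⟪b₁, b₂⟫ • b₁ ≠ 0 := by
    intro h
    have := hb (-⟪b₁, b₂⟫) (‖b₁‖ ^ 2) (by rw [neg_smul]; rw [← h]; abel)
    exact h1.ne' this.2
  have h2 : 0 < ‖(‖b₁‖ ^ 2) • b₂ - ⟪b₁, b₂⟫ • b₁‖ ^ 2 := by positivity
  rw [norm_sub_sq_real, norm_smul, norm_smul, real_inner_smul_left, real_inner_smul_right,
    mul_pow, mul_pow, Real.norm_eq_abs, Real.norm_eq_abs, sq_abs, sq_abs, real_inner_comm b₁ b₂] at h2
  have h3 : 0 < ‖b₁‖ ^ 2 * (‖b₁‖ ^ 2 * ‖b₂‖ ^ 2 - ⟪b₁, b₂⟫ ^ 2) := by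
    nlinarith [h2]
  exact (pos_iff_pos_of_mul_pos h3).1 h1

theorem lv_injective (b₁ b₂ : EuclideanSpace ℝ (Fin 2)) (hb : LinearIndependent ℝ ![b₁, b₂])
    (u v : ℤ × ℤ) (h : lv b₁ b₂ u = lv b₁ b₂ v) : u = v := by
  have h0 : lv b₁ b₂ (u - v) = 0 := by rw [lv_sub, h, sub_self]
  rw [LinearIndependent.pair_iff] at hb
  have := hb _ _ h0
  simp only [Prod.fst_sub, Prod.snd_sub, Int.cast_sub] at this
  ext
  · have h1 := this.1
    have : (u.1 : ℝ) = v.1 := by linarith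
    exact_mod_cast this
  · have h1 := this.2
    have : (u.2 : ℝ) = v.2 := by linarith
    exact_mod_cast this

/-- coordinates of a finite subset of a similar copy of a lattice -/
theorem coords (b₁ b₂ : EuclideanSpace ℝ (Fin 2)) (hb : LinearIndependent ℝ ![b₁, b₂])
    (S : Finset (EuclideanSpace ℝ (Fin 2))) (x₀ : EuclideanSpace ℝ (Fin 2)) (t Δ : ℝ) (ht : 0 < t)
    (hS : ∀ x ∈ S, ∃ m n : ℤ, x = x₀ + t • ((m : ℝ) • b₁ + (n : ℝ) • b₂))
    (hdist : ∀ x ∈ S, ∀ y ∈ S, dist x y ≤ t * Δ) :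
    ∃ P : Finset (ℤ × ℤ), P.card = S.card ∧
      (∀ u ∈ P, ∀ v ∈ P, QR (‖b₁‖ ^ 2) ⟪b₁, b₂⟫ (‖b₂‖ ^ 2) (u - v) ≤ Δ ^ 2) ∧
      (P.offDiag.image (fun w => QR (‖b₁‖ ^ 2) ⟪b₁, b₂⟫ (‖b₂‖ ^ 2) (w.1 - w.2))).card ≤
        (S.offDiag.image (fun pq => dist pq.1 pq.2)).card := by
  classical
  choose! m n hmn using hS
  have hdd : ∀ x ∈ S, ∀ y ∈ S,
      QR (‖b₁‖ ^ 2) ⟪b₁, b₂⟫ (‖b₂‖ ^ 2) ((m x, n x) - (m y, n y)) = (dist x y / t) ^ 2 := by
    intro x hx y hy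
    rw [← norm_lv]
    congr 1
    rw [dist_eq_norm, eq_div_iff ht.ne']
    have h1 : x - y = t • lv b₁ b₂ ((m x, n x) - (m y, n y)) := by
      rw [lv_sub, smul_sub]
      nth_rewrite 1 [hmn x hx]
      nth_rewrite 1 [hmn y hy]
      simp only [lv]
      abel
    rw [h1, norm_smul, Real.norm_eq_abs, abs_of_pos ht, mul_comm]
  have hinj : Set.InjOn (fun x => (m x, n x)) (S : Set (EuclideanSpace ℝ (Fin 2))) := by
    intro x hx y hy hxy
    have hxy' : (m x, n x) = (m y, n y) := hxy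
    rw [hmn x hx, hmn y hy, (Prod.mk.inj hxy').1, (Prod.mk.inj hxy').2]
  refine ⟨S.image (fun x => (m x, n x)), Finset.card_image_of_injOn hinj, ?_, ?_⟩
  · intro u hu v hv
    obtain ⟨x, hx, rfl⟩ := Finset.mem_image.1 hu
    obtain ⟨y, hy, rfl⟩ := Finset.mem_image.1 hv
    rw [hdd x hx y hy]
    have h1 := hdist x hx y hy
    have h2 : dist x y / t ≤ Δ := by rw [div_le_iff₀ ht]; linarith
    have h3 : 0 ≤ dist x y / t := by positivity
    nlinarith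
  · have hsub : ((S.image (fun x => (m x, n x))).offDiag.image
        (fun w => QR (‖b₁‖ ^ 2) ⟪b₁, b₂⟫ (‖b₂‖ ^ 2) (w.1 - w.2))) ⊆
        (S.offDiag.image (fun pq => dist pq.1 pq.2)).image (fun r => (r / t) ^ 2) := by
      intro q hq
      simp only [Finset.mem_image, Finset.mem_offDiag] at hq ⊢
      obtain ⟨w, ⟨⟨x, hx, hxw⟩, ⟨y, hy, hyw⟩, hne⟩, rfl⟩ := hq
      refine ⟨dist x y, ⟨(x, y), ⟨hx, hy, ?_⟩, rfl⟩, ?_⟩
      · intro hxy
        have hxy' : x = y := hxy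
        subst hxy'
        exact hne (hxw.symm.trans hyw)
      · rw [← hdd x hx y hy, hxw, hyw]
    exact (Finset.card_le_card hsub).trans Finset.card_image_le

theorem log_pos_aux (n Δ : ℝ) (hn : 2 ≤ n) :
    Real.log 2 ≤ Real.log (2 + Δ ^ 2 / n) ∧ Real.log 4 ≤ Real.log (2 * n + Δ ^ 2) := by
  constructor
  · apply Real.log_le_log (by norm_num)
    have : 0 ≤ Δ ^ 2 / n := by positivity
    linarith
  · apply Real.log_le_log (by norm_num)
    nlinarith [sq_nonneg Δ]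

/-- the number of distinct distances of a finite set in a similar copy of a lattice -/
theorem lattice_distances (b₁ b₂ : EuclideanSpace ℝ (Fin 2)) (hb : LinearIndependent ℝ ![b₁, b₂]) :
    ∃ c : ℝ, 0 < c ∧ ∀ (S : Finset (EuclideanSpace ℝ (Fin 2))) (x₀ : EuclideanSpace ℝ (Fin 2))
      (t Δ : ℝ), 2 ≤ S.card → 0 < t →
      (∀ x ∈ S, ∃ m n : ℤ, x = x₀ + t • ((m : ℝ) • b₁ + (n : ℝ) • b₂)) →
      (∀ x ∈ S, ∀ y ∈ S, dist x y ≤ t * Δ) →
      c * S.card / √(Real.log (2 + Δ ^ 2 / S.card) * Real.log (2 * S.card + Δ ^ 2)) ≤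
        ((S.offDiag.image (fun pq => dist pq.1 pq.2)).card : ℝ) := by
  obtain ⟨hal, hdet⟩ := gram_pos b₁ b₂ hb
  have hl2 : (0.69 : ℝ) < Real.log 2 := by have := Real.log_two_gt_d9; linarith
  have hl4 : (1.38 : ℝ) < Real.log 4 := by
    have : Real.log 4 = 2 * Real.log 2 := by
      rw [show (4 : ℝ) = 2 ^ 2 by norm_num, Real.log_pow]; norm_num
    linarith
  by_cases hr : Rat (‖b₁‖ ^ 2) ⟪b₁, b₂⟫ (‖b₂‖ ^ 2)
  · obtain ⟨lam, a, b, c', hlam, h1, h2, h3⟩ := hr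
    have hapos : 0 < a := by
      have : (0 : ℝ) < a := by rw [← h1]; positivity
      exact_mod_cast this
    have hdpos : 0 < a * c' - b ^ 2 := by
      have : (0 : ℝ) < a * c' - b ^ 2 := by
        rw [← h1, ← h2, ← h3]
        have : lam * ‖b₁‖ ^ 2 * (lam * ‖b₂‖ ^ 2) - (lam * ⟪b₁, b₂⟫) ^ 2 =
          lam ^ 2 * (‖b₁‖ ^ 2 * ‖b₂‖ ^ 2 - ⟪b₁, b₂⟫ ^ 2) := by ring
        rw [this]; positivity
      exact_mod_cast this
    obtain ⟨d, hd⟩ : ∃ d : ℕ, a * c' - b ^ 2 = (d : ℤ) := ⟨(a * c' - b ^ 2).toNat, by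
      rw [Int.toNat_of_nonneg hdpos.le]⟩
    have hd1 : 1 ≤ d := by
      have : (0 : ℤ) < (d : ℤ) := by rw [← hd]; exact hdpos
      exact_mod_cast this
    have hqq : ∀ v : ℤ × ℤ, (qf a b c' v : ℝ) =
        lam * QR (‖b₁‖ ^ 2) ⟪b₁, b₂⟫ (‖b₂‖ ^ 2) v := by
      intro v
      unfold qf QR
      push_cast
      rw [← h1, ← h2, ← h3]
      ring
    obtain ⟨c₀, hc₀, hform⟩ := form_bound d hd1
    -- constants
    set M : ℝ := 1 + Real.log (1 + lam) with hM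
    have hlog1 : 0 ≤ Real.log (1 + lam) := Real.log_nonneg (by linarith)
    have hM1 : 1 ≤ M := by linarith
    refine ⟨c₀ / (1 + 2 * M), by positivity, ?_⟩
    intro S x₀ t Δ hS ht hmem hdist
    obtain ⟨P, hPc, hPq, hPd⟩ := coords b₁ b₂ hb S x₀ t Δ ht hmem hdist
    have hnr : (2 : ℝ) ≤ S.card := by exact_mod_cast hS
    obtain ⟨hA, hB⟩ := log_pos_aux S.card Δ hnr
    set A := Real.log (2 + Δ ^ 2 / S.card) with hAdef
    set B := Real.log (2 * S.card + Δ ^ 2) with hBdef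
    have hApos : 0 < A := by linarith
    have hBpos : 0 < B := by linarith
    have hAB : Real.log S.card + A = B := by
      rw [hAdef, hBdef, ← Real.log_mul (by linarith) (by positivity)]
      congr 1
      field_simp
    set L := M + A with hL
    have hL1 : 1 ≤ L := by linarith
    have hexp : lam * Δ ^ 2 ≤ P.card * Real.exp L := by
      rw [hPc, hL, hM, Real.exp_add, Real.exp_add, Real.exp_log (by linarith), hAdef,
        Real.exp_log (by positivity)]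
      have he : 1 ≤ Real.exp 1 := Real.one_le_exp (by norm_num)
      have h5 : (S.card : ℝ) * (2 + Δ ^ 2 / S.card) = 2 * S.card + Δ ^ 2 := by field_simp
      have h6 : (S.card : ℝ) * (Real.exp 1 * (1 + lam) * (2 + Δ ^ 2 / S.card)) =
          Real.exp 1 * (1 + lam) * (2 * S.card + Δ ^ 2) := by rw [← h5]; ring
      rw [h6]
      have h7 : (1 + lam) * (2 * S.card + Δ ^ 2) ≤ Real.exp 1 * ((1 + lam) * (2 * S.card + Δ ^ 2)) :=
        le_mul_of_one_le_left (by positivity) he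
      nlinarith [sq_nonneg Δ]
    have hmain := hform a b c' hapos hd P (by omega) L hL1 (by
      intro u hu v hv
      rw [hqq]
      calc lam * QR (‖b₁‖ ^ 2) ⟪b₁, b₂⟫ (‖b₂‖ ^ 2) (u - v) ≤ lam * Δ ^ 2 := by
            gcongr
            exact hPq u hu v hv
        _ ≤ _ := hexp)
    have hvals : (vals a b c' P).card ≤
        (P.offDiag.image (fun w => QR (‖b₁‖ ^ 2) ⟪b₁, b₂⟫ (‖b₂‖ ^ 2) (w.1 - w.2))).card := by
      have hsub : (vals a b c' P).image (fun z : ℤ => (z : ℝ)) ⊆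
          (P.offDiag.image (fun w => QR (‖b₁‖ ^ 2) ⟪b₁, b₂⟫ (‖b₂‖ ^ 2) (w.1 - w.2))).image
            (fun r => lam * r) := by
        intro q hq
        simp only [vals, Finset.mem_image] at hq ⊢
        obtain ⟨z, ⟨w, hw, rfl⟩, rfl⟩ := hq
        exact ⟨_, ⟨w, hw, rfl⟩, (hqq _).symm⟩
      have hc1 := (Finset.card_le_card hsub).trans Finset.card_image_le
      rwa [Finset.card_image_of_injective _ Int.cast_injective] at hc1
    have hvr : ((vals a b c' P).card : ℝ) ≤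
        ((S.offDiag.image (fun pq => dist pq.1 pq.2)).card : ℝ) := by
      exact_mod_cast hvals.trans hPd
    refine le_trans ?_ (hmain.trans hvr)
    unfold gg
    rw [hPc]
    -- compare the square roots
    have hLA : L ≤ (1 + 2 * M) * A := by nlinarith
    have hLB : Real.log S.card + L ≤ (1 + 2 * M) * B := by
      have : Real.log S.card + L = M + B := by rw [hL]; linarith
      rw [this]; nlinarith
    have hlogn : 0 ≤ Real.log S.card := Real.log_nonneg (by linarith)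
    have hprod : L * (Real.log S.card + L) ≤ (1 + 2 * M) ^ 2 * (A * B) := by
      calc L * (Real.log S.card + L) ≤ ((1 + 2 * M) * A) * ((1 + 2 * M) * B) :=
            mul_le_mul hLA hLB (by linarith) (by positivity)
        _ = _ := by ring
    have hsq : √(L * (Real.log S.card + L)) ≤ (1 + 2 * M) * √(A * B) := by
      calc √(L * (Real.log S.card + L)) ≤ √((1 + 2 * M) ^ 2 * (A * B)) := Real.sqrt_le_sqrt hprod
        _ = _ := by rw [Real.sqrt_mul (by positivity), Real.sqrt_sq (by positivity)]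
    have hABp : 0 < √(A * B) := Real.sqrt_pos.2 (by positivity)
    have hLp : 0 < √(L * (Real.log S.card + L)) := Real.sqrt_pos.2 (by nlinarith)
    have e1 : c₀ / (1 + 2 * M) * S.card / √(A * B) = c₀ * S.card / ((1 + 2 * M) * √(A * B)) := by
      field_simp
    rw [e1]
    exact div_le_div_of_nonneg_left (by positivity) hLp hsq
  · refine ⟨1 / 16, by norm_num, ?_⟩
    intro S x₀ t Δ hS ht hmem hdist
    obtain ⟨P, hPc, hPq, hPd⟩ := coords b₁ b₂ hb S x₀ t Δ ht hmem hdist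
    have hnr : (2 : ℝ) ≤ S.card := by exact_mod_cast hS
    obtain ⟨hA, hB⟩ := log_pos_aux S.card Δ hnr
    have hfew := few_values (‖b₁‖ ^ 2) ⟪b₁, b₂⟫ (‖b₂‖ ^ 2) hal hdet hr P
    have hPdr : ((P.offDiag.image (fun w => QR (‖b₁‖ ^ 2) ⟪b₁, b₂⟫ (‖b₂‖ ^ 2) (w.1 - w.2))).card : ℝ) ≤
        ((S.offDiag.image (fun pq => dist pq.1 pq.2)).card : ℝ) := by exact_mod_cast hPd
    refine le_trans ?_ (hfew.trans hPdr)
    rw [hPc]
    have hroot : (1 / 2 : ℝ) ≤ √(Real.log (2 + Δ ^ 2 / S.card) * Real.log (2 * S.card + Δ ^ 2)) := by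
      apply Real.le_sqrt_of_sq_le
      nlinarith
    rw [div_le_iff₀ (by linarith)]
    nlinarith

end Pool.Agent.DL
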