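import Pool.Agent.DL.Defs

/-!
# DL SUB (descent to a sublattice of index `p`)

CASE `p ∤ a`: pick `r` with `p ∣ r² + d` and `s` with `p ∣ a s + b - r` (`a` is invertible
mod `p`).  `a * q(s,1) = (a s + b)² + d ≡ r² + d ≡ 0`, so `q(s,1) = p c'`.  Take `a' = a p`,
`b' = a s + b`, `c'`, `T (k, y) = (p k + s y, y)`, `t i = (i, 0)`:
`q (p k + s y, y) = p (a' k² + 2 b' k y + c' y²)`, `a' c' - b'² = a q(s,1) - (a s + b)² = d`; every
`(x, y)` is `(i, 0) + T (k, y)` with `i ≡ x - s y mod p`, `0 ≤ i < p`.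
CASE `p ∣ a`: `a' = a / p`, `b' = b`, `c' = c p`, `T (x, l) = (x, p l)`, `t i = (0, i)`.
-/

set_option autoImplicit false

namespace Pool.Agent.DL

theorem sublattice (a b c d : ℤ) (ha : 0 < a) (hd : a * c - b ^ 2 = d) (p : ℕ) (hp : Split d p) :
    ∃ (a' b' c' : ℤ) (T : ℤ × ℤ →+ ℤ × ℤ) (t : Fin p → ℤ × ℤ),
      0 < a' ∧ a' * c' - b' ^ 2 = d ∧ Function.Injective T ∧
      (∀ v, qf a b c (T v) = p * qf a' b' c' v) ∧ ∀ w, ∃ i v, w = t i + T v := by
  obtain ⟨hpr, -, -, r, hr⟩ := hp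
  have hp0 : (0 : ℤ) < p := by exact_mod_cast hpr.pos
  have hpp : Prime (p : ℤ) := Nat.prime_iff_prime_int.mp hpr
  have key : ∀ z : ℤ, ∃ (i : Fin p) (k : ℤ), z = (i : ℕ) + p * k := by
    intro z
    have h1 : 0 ≤ z % p := Int.emod_nonneg _ hp0.ne'
    have h2 : z % p < p := Int.emod_lt_of_pos _ hp0
    refine ⟨⟨(z % p).toNat, by omega⟩, z / p, ?_⟩
    have h3 : (((z % p).toNat : ℕ) : ℤ) = z % p := Int.toNat_of_nonneg h1
    have h4 := Int.emod_add_mul_ediv z p
    simp only [h3]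
    linarith
  by_cases hpa : (p : ℤ) ∣ a
  · obtain ⟨a', ha'⟩ := hpa
    refine ⟨a', b, c * p,
      { toFun := fun v => (v.1, p * v.2), map_zero' := by simp, map_add' := ?_ },
      fun i => (0, (i : ℕ)), ?_, ?_, ?_, ?_, ?_⟩
    · intro v w
      ext
      · simp
      · simp; ring
    · by_contra h
      push Not at h
      have : (p : ℤ) * a' ≤ 0 := mul_nonpos_of_nonneg_of_nonpos hp0.le h
      omega
    · rw [← hd, ha']; ring
    · intro v w h
      simp only [AddMonoidHom.coe_mk, ZeroHom.coe_mk, Prod.mk.injEq] at h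
      ext
      · exact h.1
      · exact mul_left_cancel₀ hp0.ne' h.2
    · intro v
      simp only [AddMonoidHom.coe_mk, ZeroHom.coe_mk, qf, ha']
      ring
    · intro w
      obtain ⟨i, k, hk⟩ := key w.2
      refine ⟨i, (w.1, k), ?_⟩
      ext
      · simp
      · simp [hk]
  · have hcop : IsCoprime a (p : ℤ) := by
      have := (Prime.coprime_iff_not_dvd hpp).mpr hpa
      exact this.symm
    obtain ⟨u, v, huv⟩ := hcop
    -- s = u * (r - b)
    set s : ℤ := u * (r - b) with hs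
    have h1 : (p : ℤ) ∣ a * s + b - r := by
      refine ⟨-v * (r - b), ?_⟩
      rw [hs]
      linear_combination (r - b) * huv
    have h2 : (p : ℤ) ∣ a * (a * s ^ 2 + 2 * b * s + c) := by
      have e : a * (a * s ^ 2 + 2 * b * s + c) = (a * s + b - r) * (a * s + b + r) + (r ^ 2 + d) := by
        rw [← hd]; ring
      rw [e]
      exact dvd_add (Dvd.dvd.mul_right h1 _) hr
    have h3 : (p : ℤ) ∣ (a * s ^ 2 + 2 * b * s + c) := (hpp.dvd_mul.mp h2).resolve_left hpa
    obtain ⟨c', hc'⟩ := h3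
    refine ⟨a * p, a * s + b, c',
      { toFun := fun v => (p * v.1 + s * v.2, v.2), map_zero' := by simp, map_add' := ?_ },
      fun i => ((i : ℕ), 0), ?_, ?_, ?_, ?_, ?_⟩
    · intro v w
      ext
      · simp; ring
      · simp
    · positivity
    · have : a * p * c' = a * (a * s ^ 2 + 2 * b * s + c) := by rw [hc']; ring
      rw [this, ← hd]; ring
    · intro v w h
      simp only [AddMonoidHom.coe_mk, ZeroHom.coe_mk, Prod.mk.injEq] at h
      obtain ⟨h5, h6⟩ := h
      rw [h6] at h5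
      ext
      · have : (p : ℤ) * v.1 = p * w.1 := by linarith
        exact mul_left_cancel₀ hp0.ne' this
      · exact h6
    · intro v
      simp only [AddMonoidHom.coe_mk, ZeroHom.coe_mk, qf]
      linear_combination v.2 ^ 2 * hc'
    · intro w
      obtain ⟨i, k, hk⟩ := key (w.1 - s * w.2)
      refine ⟨i, (k, w.2), ?_⟩
      ext
      · simp; linarith
      · simp

end Pool.Agent.DL
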